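import Pool.Agent.H5SEP.Stm

set_option autoImplicit false
open Finset

namespace Pool.Agent.H5SEP.ACY

open Pool.Agent.R135.SEP Pool.Agent.H5SEP

/-- signed indicator sums along a list -/
def eps {α β : Type*} [DecidableEq β] (L : List α) (g : α → β) (s : α → ℤ) (e : β) : ℤ :=
  (L.map (fun d => if g d = e then s d else 0)).sum

theorem eps_cons {α β : Type*} [DecidableEq β] (a : α) (L : List α) (g : α → β) (s : α → ℤ) (e : β) :
    eps (a :: L) g s e = (if g a = e then s a else 0) + eps L g s e := by
  simp [eps]

theorem eps_zero {α β : Type*} [DecidableEq β] (L : List α) (g : α → β) (s : α → ℤ) (e : β)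
    (h : e ∉ L.map g) : eps L g s e = 0 := by
  induction L with
  | nil => simp [eps]
  | cons a L ih =>
    rw [List.map_cons, List.mem_cons, not_or] at h
    rw [eps_cons, ih h.2, if_neg (fun h' => h.1 h'.symm), add_zero]

theorem eps_mem {α β : Type*} [DecidableEq β] (L : List α) (g : α → β) (s : α → ℤ)
    (h : (L.map g).Nodup) (d : α) (hd : d ∈ L) : eps L g s (g d) = s d := by
  induction L with
  | nil => simp at hd
  | cons a L ih =>
    rw [List.map_cons, List.nodup_cons] at h
    rw [eps_cons]
    rcases List.mem_cons.1 hd with rfl | hd'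
    · rw [if_pos rfl, eps_zero L g s _ h.1, add_zero]
    · rw [if_neg, zero_add, ih h.2 hd']
      intro h'
      exact h.1 (h' ▸ List.mem_map_of_mem hd')

theorem eps_sum {α β : Type*} [DecidableEq β] [Fintype β] (L : List α) (g : α → β) (s : α → ℤ)
    (φ : β → ℤ) : ∑ e, eps L g s e * φ e = (L.map (fun d => s d * φ (g d))).sum := by
  induction L with
  | nil => simp [eps]
  | cons a L ih =>
    simp only [eps_cons, add_mul, Finset.sum_add_distrib, ih, List.map_cons, List.sum_cons]
    simp [ite_mul]

theorem tele {V : Type*} {G : SimpleGraph V} (f : V → ℤ) {u v : V} (p : G.Walk u v) :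
    (p.darts.map (fun d => f d.fst - f d.snd)).sum = f u - f v := by
  induction p with
  | nil => simp
  | cons h p ih => simp [ih]

theorem t : Pool.Agent.H5SEP.ACY := by
  classical
  intro n G M w f hG v c hc
  set s : (TG G M w f).Dart → ℤ :=
    fun d => if f d.fst - f d.snd = M + w d.edge then 1 else -1 with hs
  have hM : ∀ e, 0 < M + w e := by
    intro e
    have h1 := hG.pos e
    have h2 : 0 ≤ ∑ e, w e := Finset.sum_nonneg (fun i _ => (hG.pos i).le)
    have h3 := hG.big
    linarith
  have hsd : ∀ d : (TG G M w f).Dart, s d * (M + w d.edge) = f d.fst - f d.snd := by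
    intro d
    have h := d.adj.2
    have he : d.edge = s(d.fst, d.snd) := rfl
    rw [hs]
    dsimp only
    split_ifs with h1
    · rw [h1, one_mul]
    · rw [he] at h1 ⊢
      rcases h with h | h
      · exact absurd h h1
      · linarith
  have hnd : (c.darts.map (fun d => d.edge)).Nodup := hc.isTrail.edges_nodup
  have hsum : ∑ e, eps c.darts (fun d => d.edge) s e * (M + w e) = 0 := by
    rw [eps_sum]
    have : (c.darts.map (fun d => s d * (M + w d.edge))) = c.darts.map (fun d => f d.fst - f d.snd) :=
      List.map_congr_left (fun d _ => hsd d)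
    rw [this, tele, sub_self]
  have hs1 : ∀ d, s d = -1 ∨ s d = 0 ∨ s d = 1 := by
    intro d
    rw [hs]
    dsimp only
    split_ifs
    · right; right; rfl
    · left; rfl
  have h0 := hG.gen (eps c.darts (fun d => d.edge) s) (by
    intro e
    by_cases he : e ∈ c.darts.map (fun d => d.edge)
    · obtain ⟨d, hd, rfl⟩ := List.mem_map.1 he
      rw [eps_mem c.darts (fun d => d.edge) s hnd d hd]
      exact hs1 d
    · rw [eps_zero _ _ _ _ he]
      right; left; rfl) hsum
  have hne : c.darts ≠ [] := by
    intro h
    have := hc.three_le_length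
    rw [← c.length_darts, h] at this
    simp at this
  obtain ⟨d, hd⟩ := List.exists_mem_of_ne_nil _ hne
  have h2 := h0 d.edge
  have h3 := eps_mem c.darts (fun d => d.edge) s hnd d hd
  rw [h2] at h3
  have h4 : s d ≠ 0 := by
    rw [hs]
    dsimp only
    split_ifs <;> norm_num
  exact h4 h3.symm

end Pool.Agent.H5SEP.ACY
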