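import Pool.Agent.H5SEP.Stm

/-!
# C8: the first five coefficients of the gamma polynomial of degree 8 (project SEP of helper5)
-/

set_option autoImplicit false
open Finset

namespace Pool.Agent.H5SEP.C8

open Pool.Agent.R135.SEP

lemma m0 (p : PowerSeries ℤ) : PowerSeries.coeff 0 ((1 - PowerSeries.X) * p) =
    PowerSeries.coeff 0 p := by
  rw [sub_mul, one_mul, map_sub, PowerSeries.coeff_zero_X_mul, sub_zero]

lemma ms (p : PowerSeries ℤ) (k : ℕ) : PowerSeries.coeff (k + 1) ((1 - PowerSeries.X) * p) =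
    PowerSeries.coeff (k + 1) p - PowerSeries.coeff k p := by
  rw [sub_mul, one_mul, map_sub, PowerSeries.coeff_succ_X_mul]

lemma m1 (p : PowerSeries ℤ) : PowerSeries.coeff 1 ((1 - PowerSeries.X) * p) =
    PowerSeries.coeff 1 p - PowerSeries.coeff 0 p := ms p 0

lemma m2 (p : PowerSeries ℤ) : PowerSeries.coeff 2 ((1 - PowerSeries.X) * p) =
    PowerSeries.coeff 2 p - PowerSeries.coeff 1 p := ms p 1

lemma m3 (p : PowerSeries ℤ) : PowerSeries.coeff 3 ((1 - PowerSeries.X) * p) =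
    PowerSeries.coeff 3 p - PowerSeries.coeff 2 p := ms p 2

lemma m4 (p : PowerSeries ℤ) : PowerSeries.coeff 4 ((1 - PowerSeries.X) * p) =
    PowerSeries.coeff 4 p - PowerSeries.coeff 3 p := ms p 3

lemma q0 (p : PowerSeries ℤ) : PowerSeries.coeff 0 ((1 + PowerSeries.X) * p) =
    PowerSeries.coeff 0 p := by
  rw [add_mul, one_mul, map_add, PowerSeries.coeff_zero_X_mul, add_zero]

lemma qs (p : PowerSeries ℤ) (k : ℕ) : PowerSeries.coeff (k + 1) ((1 + PowerSeries.X) * p) =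
    PowerSeries.coeff (k + 1) p + PowerSeries.coeff k p := by
  rw [add_mul, one_mul, map_add, PowerSeries.coeff_succ_X_mul]

lemma q1 (p : PowerSeries ℤ) : PowerSeries.coeff 1 ((1 + PowerSeries.X) * p) =
    PowerSeries.coeff 1 p + PowerSeries.coeff 0 p := qs p 0

lemma q2 (p : PowerSeries ℤ) : PowerSeries.coeff 2 ((1 + PowerSeries.X) * p) =
    PowerSeries.coeff 2 p + PowerSeries.coeff 1 p := qs p 1

lemma q3 (p : PowerSeries ℤ) : PowerSeries.coeff 3 ((1 + PowerSeries.X) * p) =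
    PowerSeries.coeff 3 p + PowerSeries.coeff 2 p := qs p 2

lemma q4 (p : PowerSeries ℤ) : PowerSeries.coeff 4 ((1 + PowerSeries.X) * p) =
    PowerSeries.coeff 4 p + PowerSeries.coeff 3 p := qs p 3

lemma x0 (p : PowerSeries ℤ) : PowerSeries.coeff 0 (PowerSeries.X * p) = 0 :=
  PowerSeries.coeff_zero_X_mul p

lemma x1 (p : PowerSeries ℤ) : PowerSeries.coeff 1 (PowerSeries.X * p) =
    PowerSeries.coeff 0 p := PowerSeries.coeff_succ_X_mul 0 p

lemma x2 (p : PowerSeries ℤ) : PowerSeries.coeff 2 (PowerSeries.X * p) =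
    PowerSeries.coeff 1 p := PowerSeries.coeff_succ_X_mul 1 p

lemma x3 (p : PowerSeries ℤ) : PowerSeries.coeff 3 (PowerSeries.X * p) =
    PowerSeries.coeff 2 p := PowerSeries.coeff_succ_X_mul 2 p

lemma x4 (p : PowerSeries ℤ) : PowerSeries.coeff 4 (PowerSeries.X * p) =
    PowerSeries.coeff 3 p := PowerSeries.coeff_succ_X_mul 3 p

lemma o0 : PowerSeries.coeff 0 (1 : PowerSeries ℤ) = 1 := by
  rw [PowerSeries.coeff_one]; norm_num
lemma o1 : PowerSeries.coeff 1 (1 : PowerSeries ℤ) = 0 := by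
  rw [PowerSeries.coeff_one]; norm_num
lemma o2 : PowerSeries.coeff 2 (1 : PowerSeries ℤ) = 0 := by
  rw [PowerSeries.coeff_one]; norm_num
lemma o3 : PowerSeries.coeff 3 (1 : PowerSeries ℤ) = 0 := by
  rw [PowerSeries.coeff_one]; norm_num
lemma o4 : PowerSeries.coeff 4 (1 : PowerSeries ℤ) = 0 := by
  rw [PowerSeries.coeff_one]; norm_num

lemma pow8 (a p : PowerSeries ℤ) : a ^ 8 * p = a * (a * (a * (a * (a * (a * (a * (a * p))))))) := by
  ring

lemma pow8' (a : PowerSeries ℤ) : a ^ 8 = a * (a * (a * (a * (a * (a * (a * (a * 1))))))) := by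
  ring

lemma pow6' (a : PowerSeries ℤ) : a ^ 6 = a * (a * (a * (a * (a * (a * 1))))) := by
  ring

lemma pow4' (a : PowerSeries ℤ) : a ^ 4 = a * (a * (a * (a * 1))) := by
  ring

lemma pow3' (a : PowerSeries ℤ) : a ^ 3 = a * (a * (a * 1)) := by
  ring

lemma pow2' (a : PowerSeries ℤ) : a ^ 2 = a * (a * 1) := by
  ring

theorem t : C8 := by
  intro s γ hγ s0 s1 s2 s3 s4 h0 h1 h2 h3 h4
  have h := hγ.2
  have hr : (8 / 2 + 1 : ℕ) = 5 := rfl
  rw [hr] at h
  simp only [Finset.sum_range_succ, Finset.sum_range_zero, zero_add] at h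
  have e0 : (8 - 2 * 0 : ℕ) = 8 := rfl
  have e1 : (8 - 2 * 1 : ℕ) = 6 := rfl
  have e2 : (8 - 2 * 2 : ℕ) = 4 := rfl
  have e3 : (8 - 2 * 3 : ℕ) = 2 := rfl
  have e4 : (8 - 2 * 4 : ℕ) = 0 := rfl
  rw [e0, e1, e2, e3, e4, pow8] at h
  simp only [pow_zero, pow_one, mul_one, mul_assoc] at h
  rw [pow8', pow6', pow4' (1 + PowerSeries.X), pow2' (1 + PowerSeries.X),
    pow4' PowerSeries.X, pow3' PowerSeries.X, pow2' PowerSeries.X] at h
  have k0 := congrArg (PowerSeries.coeff 0) h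
  have k1 := congrArg (PowerSeries.coeff 1) h
  have k2 := congrArg (PowerSeries.coeff 2) h
  have k3 := congrArg (PowerSeries.coeff 3) h
  have k4 := congrArg (PowerSeries.coeff 4) h
  simp only [map_add, PowerSeries.coeff_C_mul, mul_assoc, one_mul, m0, m1, m2, m3, m4, q0, q1, q2, q3, q4,
    x0, x1, x2, x3, x4, o0, o1, o2, o3, o4, h0, h1, h2, h3, h4] at k0 k1 k2 k3 k4
  refine ⟨by linarith, by linarith, by linarith, by linarith, by linarith⟩

end Pool.Agent.H5SEP.C8
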