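import Pool.Agent.H5SEP.FEX

/-!
# CARD: a tree has `n - 1` tight vectors
-/

set_option autoImplicit false
open Finset

namespace Pool.Agent.H5SEP.CARD

open Pool.Agent.R135.SEP Pool.Agent.H5SEP

theorem t : Pool.Agent.H5SEP.CARD := by
  classical
  intro n G M w f hw ht
  have h1 := ht.card_edgeFinset
  rw [Fintype.card_fin] at h1
  have h2 : (TV G M w f).card = (univ.filter (fun p : Fin n × Fin n => G.Adj p.1 p.2 ∧
      f p.1 - f p.2 = M + w s(p.1, p.2))).card := by
    unfold TV
    rw [Finset.card_image_of_injOn]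
    rintro ⟨a, b⟩ hp ⟨c, d⟩ hq h
    simp only [Finset.coe_filter, Finset.mem_univ, true_and, Set.mem_ofPred_eq] at hp hq
    obtain ⟨h3, h4⟩ := FEX.ev_inj hp.1.ne h
    exact Prod.ext h3 h4
  have h3 : (univ.filter (fun p : Fin n × Fin n => G.Adj p.1 p.2 ∧
      f p.1 - f p.2 = M + w s(p.1, p.2))).card = (TG G M w f).edgeFinset.card := by
    apply Finset.card_bij (fun p _ => s(p.1, p.2))
    · rintro ⟨a, b⟩ hp
      rw [Finset.mem_filter] at hp
      rw [SimpleGraph.mem_edgeFinset, SimpleGraph.mem_edgeSet]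
      exact ⟨hp.2.1, Or.inl hp.2.2⟩
    · rintro ⟨a, b⟩ hp ⟨c, d⟩ hq h
      rw [Finset.mem_filter] at hp hq
      rw [Sym2.eq_iff] at h
      rcases h with ⟨h4, h5⟩ | ⟨h4, h5⟩
      · exact Prod.ext h4 h5
      · exfalso
        simp only at h4 h5 hp hq
        subst h4 h5
        have h6 := hp.2.2
        have h7 := hq.2.2
        have h8 := FEX.len_pos hw s(a, b)
        rw [Sym2.eq_swap] at h7
        linarith
    · intro e he
      induction e using Sym2.ind with
      | _ a b =>
        rw [SimpleGraph.mem_edgeFinset, SimpleGraph.mem_edgeSet] at he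
        rcases he.2 with h | h
        · exact ⟨(a, b), Finset.mem_filter.mpr ⟨Finset.mem_univ _, he.1, h⟩, rfl⟩
        · refine ⟨(b, a), Finset.mem_filter.mpr ⟨Finset.mem_univ _, he.1.symm, ?_⟩, Sym2.eq_swap⟩
          show f b - f a = M + w s(b, a)
          rw [Sym2.eq_swap]
          exact h
  rw [h2, h3]
  omega

end Pool.Agent.H5SEP.CARD
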