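import Pool.Agent.H5SEP.Stm

/-! Stub COV of project SEP (helper5), proved by helper82. -/

set_option autoImplicit false
open Finset

namespace Pool.Agent.H5SEP.COV

open Pool.Agent.R135.SEP

variable {n : ℕ}

lemma walk_bd {G : SimpleGraph (Fin n)} {M : ℤ} {w : Sym2 (Fin n) → ℤ} {K : ℤ}
    (hK : ∀ e, M + w e ≤ K) {f : Fin n → ℤ} (hf : LipW G M w f) {u v : Fin n} (p : G.Walk u v) :
    f u - f v ≤ K * p.length := by
  induction p with
  | nil => simp
  | @cons a b c h p ih =>
    have h1 := hf a b h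
    have h2 := hK s(a, b)
    rw [SimpleGraph.Walk.length_cons]
    push_cast
    linarith

lemma key {G : SimpleGraph (Fin n)} {M : ℤ} {w : Sym2 (Fin n) → ℤ} {f y : Fin n → ℤ}
    (hf : LipW G M w f) (hmax : ∀ g, LipW G M w g → pr g y ≤ pr f y) (A : Finset (Fin n))
    (hA : ∀ c d, G.Adj c d → c ∈ A → d ∉ A → f c - f d ≠ M + w s(c, d)) :
    ∑ p ∈ A, y p ≤ 0 := by
  classical
  have hg : LipW G M w (fun p => f p + if p ∈ A then 1 else 0) := by
    intro c d hcd
    have h1 := hf c d hcd
    by_cases hc : c ∈ A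
    · by_cases hd : d ∈ A
      · simp only [hc, hd, if_true]
        linarith
      · have h2 := hA c d hcd hc hd
        have h3 : f c - f d < M + w s(c, d) := lt_of_le_of_ne h1 h2
        simp only [hc, hd, if_true, if_false]
        linarith
    · by_cases hd : d ∈ A
      · simp only [hc, hd, if_true, if_false]
        linarith
      · simp only [hc, hd, if_false]
        linarith
  have h1 := hmax _ hg
  have h2 : pr (fun p => f p + if p ∈ A then 1 else 0) y = pr f y + ∑ p ∈ A, y p := by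
    unfold pr
    have h3 : ∑ p ∈ A, y p = ∑ p, (if p ∈ A then 1 else 0) * y p := by
      simp [Finset.sum_ite_mem]
    rw [h3, ← Finset.sum_add_distrib]
    exact Finset.sum_congr rfl (fun p _ => by ring)
  linarith

theorem t : Pool.Agent.H5SEP.COV := by
  classical
  intro n G M w hG hw y hy hgen
  have hsum : ∀ e, w e ≤ ∑ e, w e := fun e =>
    Finset.single_le_sum (fun i _ => (hw.pos i).le) (Finset.mem_univ e)
  have hsum0 : 0 ≤ ∑ e, w e := Finset.sum_nonneg (fun i _ => (hw.pos i).le)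
  have hM : 0 < M := by have := hw.big; linarith
  have hl : ∀ e, 0 < M + w e := fun e => by have := hw.pos e; linarith
  obtain ⟨r⟩ := hG.nonempty
  -- walks
  have hwk : ∀ p q : Fin n, ∃ L : ℕ, ∀ f, LipW G M w f → f p - f q ≤ (M + ∑ e, w e) * L := by
    intro p q
    obtain ⟨wk⟩ := hG.preconnected p q
    exact ⟨wk.length, fun f hf => walk_bd (fun e => by have := hsum e; linarith) hf wk⟩
  choose L hL using hwk
  -- bound
  have hbd : ∀ f, LipW G M w f → pr f y ≤ ∑ p, (M + ∑ e, w e) * (L p r + L r p) * |y p| := by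
    intro f hf
    have h1 : pr f y = ∑ p, (f p - f r) * y p := by
      have h2 : ∑ p, (f p - f r) * y p = ∑ p, f p * y p - f r * ∑ p, y p := by
        rw [Finset.mul_sum, ← Finset.sum_sub_distrib]
        exact Finset.sum_congr rfl (fun p _ => by ring)
      rw [h2, hy]
      unfold pr
      ring
    rw [h1]
    apply Finset.sum_le_sum
    intro p _
    have h3 := hL p r f hf
    have h4 := hL r p f hf
    have h5 : |f p - f r| ≤ (M + ∑ e, w e) * (L p r + L r p) := by
      rw [abs_le]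
      have hK : 0 ≤ M + ∑ e, w e := by linarith
      have e1 : 0 ≤ (M + ∑ e, w e) * (L p r : ℤ) := mul_nonneg hK (Int.natCast_nonneg _)
      have e2 : 0 ≤ (M + ∑ e, w e) * (L r p : ℤ) := mul_nonneg hK (Int.natCast_nonneg _)
      rw [mul_add]
      constructor <;> linarith
    calc (f p - f r) * y p ≤ |(f p - f r) * y p| := le_abs_self _
      _ = |f p - f r| * |y p| := abs_mul _ _
      _ ≤ _ := mul_le_mul_of_nonneg_right h5 (abs_nonneg _)
  obtain ⟨m, ⟨f, hf, hfm⟩, hmx⟩ := Int.exists_greatest_of_bdd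
    (P := fun k => ∃ f, LipW G M w f ∧ pr f y = k)
    ⟨_, fun k hk => by obtain ⟨f, hf, rfl⟩ := hk; exact hbd f hf⟩
    ⟨0, fun _ => 0, fun a b _ => by simpa using (hl s(a, b)).le, by simp [pr]⟩
  have hmax : ∀ g, LipW G M w g → pr g y ≤ pr f y := fun g hg => by
    rw [hfm]; exact hmx _ ⟨g, hg, rfl⟩
  have hcompl : ∀ A : Finset (Fin n), ∑ p ∈ A, y p = - ∑ p ∈ Aᶜ, y p := by
    intro A
    have h1 : ∑ p ∈ A, y p + ∑ p ∈ Aᶜ, y p = ∑ p, y p := Finset.sum_add_sum_compl A y
    have h2 : ∑ p, y p = 0 := hy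
    linarith
  refine ⟨f, hf, ?_, ?_⟩
  · have : Nonempty (Fin n) := ⟨r⟩
    refine ⟨fun a b => ?_⟩
    by_contra hab
    set A : Finset (Fin n) := univ.filter (fun p => (TG G M w f).Reachable a p) with hAd
    have memA : ∀ p, p ∈ A ↔ (TG G M w f).Reachable a p := fun p => by simp [hAd]
    have haA : a ∈ A := (memA a).2 (SimpleGraph.Reachable.refl a)
    have hbA : b ∉ A := fun h => hab ((memA b).1 h)
    have hno : ∀ c d, (TG G M w f).Adj c d → (c ∈ A ↔ d ∈ A) := by
      intro c d hcd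
      rw [memA, memA]
      exact ⟨fun h => h.trans hcd.reachable, fun h => h.trans hcd.symm.reachable⟩
    have h1 : ∑ p ∈ A, y p ≤ 0 := key hf hmax A (fun c d hcd hc hd he =>
      hd ((hno c d ⟨hcd, Or.inl he⟩).1 hc))
    have h2 : ∑ p ∈ Aᶜ, y p ≤ 0 := key hf hmax Aᶜ (fun c d hcd hc hd he => by
      rw [Finset.mem_compl] at hc hd
      rw [not_not] at hd
      exact hc ((hno c d ⟨hcd, Or.inl he⟩).2 hd))
    have h3 := hcompl A
    exact hgen A ⟨a, haA⟩ (fun h => hbA (h ▸ Finset.mem_univ b)) (by linarith)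
  · intro a b A hcut
    obtain ⟨hadj, htight, haA, hbA, hout⟩ := hcut
    have h2 : ∑ p ∈ Aᶜ, y p ≤ 0 := key hf hmax Aᶜ (fun c d hcd hc hd he => by
      rw [Finset.mem_compl] at hc hd
      rw [not_not] at hd
      have hT : (TG G M w f).Adj d c := by
        refine ⟨hcd.symm, Or.inr ?_⟩
        rw [he, Sym2.eq_swap]
      obtain ⟨rfl, rfl⟩ := hout d c hT hd hc
      have h5 := hl s(d, c)
      have h6 := hl s(c, d)
      linarith)
    have h3 := hcompl A
    linarith

end Pool.Agent.H5SEP.COV
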