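import Pool.Agent.H5SEP.FEX

/-!
# CUT: an edge of a tree cuts it
-/

set_option autoImplicit false
open Finset

namespace Pool.Agent.H5SEP.CUT

open Pool.Agent.R135.SEP Pool.Agent.H5SEP

theorem t : Pool.Agent.H5SEP.CUT := by
  classical
  intro n G M w f hw ht a b hab hfab
  have hT : (TG G M w f).Adj a b := ⟨hab, Or.inl hfab⟩
  have hbr := (SimpleGraph.isAcyclic_iff_forall_adj_isBridge.mp ht.2) hT
  rw [SimpleGraph.isBridge_iff] at hbr
  have hnr : ¬ ((TG G M w f).deleteEdges {s(a, b)}).Reachable a b := by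
    first
    | exact hbr.2
    | exact hbr
  refine ⟨univ.filter (fun p => ((TG G M w f).deleteEdges {s(a, b)}).Reachable a p), hab, hfab,
    ?_, ?_, ?_⟩
  · rw [Finset.mem_filter]
    exact ⟨Finset.mem_univ _, SimpleGraph.Reachable.refl _⟩
  · rw [Finset.mem_filter]
    exact fun h => hnr h.2
  · intro c d hcd hc hd
    rw [Finset.mem_filter] at hc hd
    by_cases h : s(c, d) = s(a, b)
    · rw [Sym2.eq_iff] at h
      rcases h with h | ⟨h1, h2⟩
      · exact h
      · exfalso
        rw [h1] at hc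
        exact hnr hc.2
    · exfalso
      apply hd
      refine ⟨Finset.mem_univ _, hc.2.trans (SimpleGraph.Adj.reachable ?_)⟩
      rw [SimpleGraph.deleteEdges_adj]
      exact ⟨hcd, by rw [Set.mem_singleton_iff]; exact h⟩

end Pool.Agent.H5SEP.CUT
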