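import Pool.Agent.H5SEP.Pop
import Pool.Agent.R135.SEPGeo

/-!
# Counting the lattice points of gauge at most `m ≤ 4` of a symmetric edge polytope on nine vertices

A balanced vector `x` is encoded by the natural number `∑ W_j x_j + 4 W_8`; the weights `W` have the property that all
sums of eight of them (with repetitions) are distinct. A set of vectors is encoded by the bit set of its codes.
-/

set_option autoImplicit false
set_option linter.constructorNameAsVariable false
open Finset

namespace Pool.Agent.H5SEP.Cnt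

open Pool.Agent.R135.SEP Pool.Agent.H5SEP.Pop

/-- weights -/
def W : Fin 9 → ℕ := ![0, 18, 22, 85, 342, 1695, 7389, 30704, 79707]

/-- one step: all the generators `± (e_a - e_b)` with `W b - W a = k` -/
def step (ks : List ℕ) (N : ℕ) : ℕ :=
  ks.foldl (fun acc k => Nat.lor (Nat.lor acc (Nat.shiftLeft N k)) (Nat.shiftRight N k)) N

def ball (ks : List ℕ) : ℕ → ℕ
  | 0 => Nat.shiftLeft 1 318828
  | m + 1 => step ks (ball ks m)

/-- sumsets of the weights -/
def sset (ks : List ℕ) : ℕ → ℕ
  | 0 => 1
  | m + 1 => ks.foldl (fun acc k => Nat.lor acc (Nat.shiftLeft (sset ks m) k)) 0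

def F : ℕ := 19927

theorem sset_card : pop F (sset [0, 18, 22, 85, 342, 1695, 7389, 30704, 79707] 8) = 12870 := by
  decide +kernel

/-- the graph with the given list of edges -/
def GE (E : List (Fin 9 × Fin 9)) : SimpleGraph (Fin 9) where
  Adj a b := a ≠ b ∧ ((a, b) ∈ E ∨ (b, a) ∈ E)
  symm := ⟨fun _ _ h => ⟨h.1.symm, h.2.symm⟩⟩
  loopless := ⟨fun _ h => h.1 rfl⟩

/-- the balls -/
def B (G : SimpleGraph (Fin 9)) : ℕ → Set (Fin 9 → ℤ)
  | 0 => {0}
  | m + 1 => {y | y ∈ B G m ∨ ∃ a b, G.Adj a b ∧ y - ev a b ∈ B G m}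

/-- code -/
def cd (x : Fin 9 → ℤ) : ℤ := ∑ j, (W j : ℤ) * x j + 318828

/-! ### Bit sets -/

lemma testBit_foldl (ks : List ℕ) (N A i : ℕ) :
    (ks.foldl (fun acc k => Nat.lor (Nat.lor acc (Nat.shiftLeft N k)) (Nat.shiftRight N k)) A).testBit i
      = true ↔ A.testBit i = true ∨
        ∃ k ∈ ks, (k ≤ i ∧ N.testBit (i - k) = true) ∨ N.testBit (i + k) = true := by
  induction ks generalizing A with
  | nil => simp
  | cons k ks ih =>
    rw [List.foldl_cons, ih]
    have h1 : (Nat.lor (Nat.lor A (Nat.shiftLeft N k)) (Nat.shiftRight N k)).testBit i = true ↔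
        A.testBit i = true ∨ (k ≤ i ∧ N.testBit (i - k) = true) ∨ N.testBit (i + k) = true := by
      have h2 : (Nat.lor (Nat.lor A (Nat.shiftLeft N k)) (Nat.shiftRight N k)) =
        ((A ||| (N <<< k)) ||| (N >>> k)) := rfl
      rw [h2, Nat.testBit_or, Nat.testBit_or, Nat.testBit_shiftLeft, Nat.testBit_shiftRight,
        add_comm k i]
      simp only [Bool.or_eq_true, Bool.and_eq_true, decide_eq_true_eq, or_assoc, ge_iff_le]
    rw [h1]
    simp only [List.mem_cons, exists_eq_or_imp]
    exact or_assoc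

lemma testBit_sset_foldl (ks : List ℕ) (N A i : ℕ) :
    (ks.foldl (fun acc k => Nat.lor acc (Nat.shiftLeft N k)) A).testBit i
      = true ↔ A.testBit i = true ∨ ∃ k ∈ ks, (k ≤ i ∧ N.testBit (i - k) = true) := by
  induction ks generalizing A with
  | nil => simp
  | cons k ks ih =>
    rw [List.foldl_cons, ih]
    have h1 : (Nat.lor A (Nat.shiftLeft N k)).testBit i = true ↔
        A.testBit i = true ∨ (k ≤ i ∧ N.testBit (i - k) = true) := by
      have h2 : (Nat.lor A (Nat.shiftLeft N k)) = (A ||| (N <<< k)) := rfl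
      rw [h2, Nat.testBit_or, Nat.testBit_shiftLeft]
      simp only [Bool.or_eq_true, Bool.and_eq_true, decide_eq_true_eq, ge_iff_le]
    rw [h1]
    simp only [List.mem_cons, exists_eq_or_imp]
    exact or_assoc

/-! ### The sums of eight weights are distinct -/

lemma sset_testBit (m i : ℕ) :
    (sset [0, 18, 22, 85, 342, 1695, 7389, 30704, 79707] m).testBit i = true ↔
      ∃ P : Fin 9 → ℕ, ∑ j, P j = m ∧ ∑ j, W j * P j = i := by
  induction m generalizing i with
  | zero =>
    have h0 : sset [0, 18, 22, 85, 342, 1695, 7389, 30704, 79707] 0 = 1 := rfl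
    rw [h0, Nat.testBit_one_eq_true_iff_self_eq_zero]
    constructor
    · rintro rfl
      exact ⟨0, by simp, by simp⟩
    · rintro ⟨P, h1, h2⟩
      rw [Finset.sum_eq_zero_iff] at h1
      rw [← h2]
      apply Finset.sum_eq_zero
      intro j hj
      rw [h1 j hj, mul_zero]
  | succ m ih =>
    have h0 : sset [0, 18, 22, 85, 342, 1695, 7389, 30704, 79707] (m + 1) =
      [0, 18, 22, 85, 342, 1695, 7389, 30704, 79707].foldl (fun acc k => Nat.lor acc (Nat.shiftLeft
        (sset [0, 18, 22, 85, 342, 1695, 7389, 30704, 79707] m) k)) 0 := rfl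
    rw [h0, testBit_sset_foldl, Nat.zero_testBit]
    have hks : ∀ k, k ∈ [0, 18, 22, 85, 342, 1695, 7389, 30704, 79707] ↔ ∃ j, W j = k := by
      intro k
      unfold W
      simp only [List.mem_cons, Fin.exists_fin_succ]
      simp [eq_comm]
    constructor
    · rintro (h | ⟨k, hk, hki, h⟩)
      · exact absurd h (by simp)
      · obtain ⟨P, h1, h2⟩ := (ih _).mp h
        obtain ⟨j, rfl⟩ := (hks k).mp hk
        refine ⟨fun i => P i + (if i = j then 1 else 0), ?_, ?_⟩
        · rw [Finset.sum_add_distrib, h1, Finset.sum_ite_eq' univ j, if_pos (Finset.mem_univ j)]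
        · have h3 : ∑ i, W i * (P i + (if i = j then 1 else 0)) = ∑ i, W i * P i + W j := by
            simp only [mul_add, Finset.sum_add_distrib, mul_ite, mul_one, mul_zero]
            rw [Finset.sum_ite_eq' univ j, if_pos (Finset.mem_univ j)]
          rw [h3, h2]
          omega
    · rintro ⟨P, h1, h2⟩
      right
      obtain ⟨j, hj⟩ : ∃ j, 0 < P j := by
        by_contra hcon
        push Not at hcon
        have : ∑ j, P j = 0 := Finset.sum_eq_zero (fun j _ => by have := hcon j; omega)
        omega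
      have h3 : ∀ i, P i = (P i - (if i = j then 1 else 0)) + (if i = j then 1 else 0) := by
        intro i
        by_cases hi : i = j
        · subst hi
          rw [if_pos rfl]
          omega
        · rw [if_neg hi]
          omega
      have h4 : ∑ i, W i * P i = ∑ i, W i * (P i - (if i = j then 1 else 0)) + W j := by
        have h6 : ∑ i, W i * P i =
            ∑ i, W i * ((P i - (if i = j then 1 else 0)) + (if i = j then 1 else 0)) :=
          Finset.sum_congr rfl (fun i _ => by rw [← h3 i])
        rw [h6]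
        simp only [mul_add, Finset.sum_add_distrib]
        congr 1
        simp only [mul_ite, mul_one, mul_zero]
        rw [Finset.sum_ite_eq' univ j, if_pos (Finset.mem_univ j)]
      have h5 : ∑ i, P i = ∑ i, (P i - (if i = j then 1 else 0)) + 1 := by
        have h6 : ∑ i, P i = ∑ i, ((P i - (if i = j then 1 else 0)) + (if i = j then 1 else 0)) :=
          Finset.sum_congr rfl (fun i _ => h3 i)
        rw [h6, Finset.sum_add_distrib, Finset.sum_ite_eq' univ j, if_pos (Finset.mem_univ j)]
      have h7 : ∑ i, (P i - (if i = j then 1 else 0)) = m := by omega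
      have h8 : ∑ i, W i * (P i - (if i = j then 1 else 0)) = i - W j := by omega
      exact ⟨W j, (hks _).mpr ⟨j, rfl⟩, by omega, (ih _).mpr
        ⟨fun i => P i - (if i = j then 1 else 0), h7, h8⟩⟩

lemma W_le (j : Fin 9) : W j ≤ 79707 := by
  fin_cases j <;> simp [W]

/-- the sum of the weights of a multiset -/
noncomputable def fw (p : Fin 9 →₀ ℕ) : ℕ := ∑ j, W j * p j

lemma mem_anti (p : Fin 9 →₀ ℕ) :
    p ∈ (univ : Finset (Fin 9)).finsuppAntidiag 8 ↔ ∑ j, p j = 8 := by
  rw [Finset.mem_finsuppAntidiag]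
  exact ⟨fun h => h.1, fun h => ⟨h, Finset.subset_univ _⟩⟩

lemma card_anti : ((univ : Finset (Fin 9)).finsuppAntidiag 8).card = 12870 := by
  rw [Finset.card_finsuppAntidiag_nat_eq_choose, Finset.card_univ, Fintype.card_fin]
  rfl

lemma img_anti : ((univ : Finset (Fin 9)).finsuppAntidiag 8).image fw =
    (range (32 * F)).filter
      (fun i => (sset [0, 18, 22, 85, 342, 1695, 7389, 30704, 79707] 8).testBit i = true) := by
  ext i
  rw [Finset.mem_image, Finset.mem_filter, Finset.mem_range, sset_testBit]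
  constructor
  · rintro ⟨p, hp, hpi⟩
    rw [mem_anti] at hp
    refine ⟨?_, p, hp, hpi⟩
    have h1 : fw p ≤ ∑ j, 79707 * p j :=
      Finset.sum_le_sum (fun j _ => Nat.mul_le_mul_right _ (W_le j))
    rw [← Finset.mul_sum, hp, hpi] at h1
    unfold F
    omega
  · rintro ⟨_, p, hp, hpi⟩
    refine ⟨Finsupp.equivFunOnFinite.symm p, ?_, hpi⟩
    rw [mem_anti]
    exact hp

lemma injOn_fw : Set.InjOn fw ((univ : Finset (Fin 9)).finsuppAntidiag 8 : Set (Fin 9 →₀ ℕ)) := by
  rw [← Finset.card_image_iff, img_anti, card_anti, ← pop_eq F _ (by unfold F; norm_num), sset_card]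

lemma W_inj (P Q : Fin 9 → ℕ) (hP : ∑ j, P j = 8) (hQ : ∑ j, Q j = 8)
    (h : ∑ j, W j * P j = ∑ j, W j * Q j) : P = Q := by
  have h3 : Finsupp.equivFunOnFinite.symm P = Finsupp.equivFunOnFinite.symm Q := by
    apply injOn_fw
    · rw [Finset.mem_coe, mem_anti]
      exact hP
    · rw [Finset.mem_coe, mem_anti]
      exact hQ
    · exact h
  exact Finsupp.equivFunOnFinite.symm.injective h3

end Pool.Agent.H5SEP.Cnt
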