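import Pool.Agent.H5SEP.CntA

/-!
# The balls of the gauge and their bit sets
-/

set_option autoImplicit false
set_option linter.constructorNameAsVariable false
open Finset

namespace Pool.Agent.H5SEP.Cnt

open Pool.Agent.R135.SEP Pool.Agent.H5SEP.Pop

/-! ### Balls of the gauge -/

lemma B_mono (G : SimpleGraph (Fin 9)) (m : ℕ) : B G m ⊆ B G (m + 1) := fun _ h => Or.inl h

lemma mem_B (G : SimpleGraph (Fin 9)) (hG : G.Connected) (m : ℕ) (x : Fin 9 → ℤ) :
    x ∈ B G m ↔ bal x ∧ nu G x ≤ m := by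
  induction m generalizing x with
  | zero =>
    constructor
    · intro h
      have h0 : x = 0 := h
      subst h0
      refine ⟨bal_zero, ?_⟩
      obtain ⟨f, _, hf⟩ := nu_attained hG (bal_zero (n := 9))
      rw [← hf]
      unfold pr
      simp
    · rintro ⟨h1, h2⟩
      have h3 := nu_nonneg hG h1
      exact nu_zero_imp hG h1 (le_antisymm (by exact_mod_cast h2) h3)
  | succ m ih =>
    constructor
    · rintro (h | ⟨a, b, hab, h⟩)
      · obtain ⟨h1, h2⟩ := (ih x).mp h
        exact ⟨h1, by push_cast; linarith⟩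
      · obtain ⟨h1, h2⟩ := (ih _).mp h
        have h3 : bal x := by
          have := h1.add (bal_ev a b)
          rwa [sub_add_cancel] at this
        refine ⟨h3, ?_⟩
        obtain ⟨f, hf, hfx⟩ := nu_attained hG h3
        have h4 := le_nu hG h1 hf
        rw [pr_sub_right, pr_ev, hfx] at h4
        have h5 := hf a b hab
        push_cast
        linarith
    · rintro ⟨h1, h2⟩
      by_cases h3 : nu G x ≤ m
      · exact Or.inl ((ih x).mpr ⟨h1, h3⟩)
      · have h4 : 0 < nu G x := by
          have : (0 : ℤ) ≤ m := Int.natCast_nonneg m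
          linarith
        obtain ⟨a, b, hab, h5⟩ := peel hG (by norm_num) h1 h4
        refine Or.inr ⟨a, b, hab, (ih _).mpr ⟨h1.sub (bal_ev a b), ?_⟩⟩
        rw [h5]
        push_cast at h2
        linarith

lemma B_split (G : SimpleGraph (Fin 9)) (m : ℕ) (x : Fin 9 → ℤ) (hx : x ∈ B G m) :
    ∃ P Q : Fin 9 → ℕ, ∑ j, P j = m ∧ ∑ j, Q j = m ∧ ∀ j, x j = (P j : ℤ) - Q j := by
  induction m generalizing x with
  | zero =>
    have h0 : x = 0 := hx
    subst h0
    exact ⟨fun _ => 0, fun _ => 0, by simp, by simp, fun j => by simp⟩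
  | succ m ih =>
    rcases hx with h | ⟨a, b, hab, h⟩
    · obtain ⟨P, Q, h1, h2, h3⟩ := ih x h
      refine ⟨fun j => P j + (if j = 0 then 1 else 0), fun j => Q j + (if j = 0 then 1 else 0),
        ?_, ?_, ?_⟩
      · rw [Finset.sum_add_distrib, h1, Finset.sum_ite_eq' univ, if_pos (Finset.mem_univ _)]
      · rw [Finset.sum_add_distrib, h2, Finset.sum_ite_eq' univ, if_pos (Finset.mem_univ _)]
      · intro j
        rw [h3 j]
        push_cast
        ring
    · obtain ⟨P, Q, h1, h2, h3⟩ := ih _ h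
      refine ⟨fun j => P j + (if j = a then 1 else 0), fun j => Q j + (if j = b then 1 else 0),
        ?_, ?_, ?_⟩
      · rw [Finset.sum_add_distrib, h1, Finset.sum_ite_eq' univ, if_pos (Finset.mem_univ _)]
      · rw [Finset.sum_add_distrib, h2, Finset.sum_ite_eq' univ, if_pos (Finset.mem_univ _)]
      · intro j
        have h4 := h3 j
        have h5 : (x - ev a b) j = x j - ((if j = a then 1 else 0) - (if j = b then 1 else 0)) := by
          unfold ev
          simp [Pi.single_apply]
        rw [h5] at h4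
        push_cast
        linarith

/-! ### Codes -/

lemma cd_eq (x : Fin 9 → ℤ) (P Q : Fin 9 → ℕ) (h : ∀ j, x j = (P j : ℤ) - Q j) :
    cd x = (∑ j, W j * P j : ℕ) - (∑ j, W j * Q j : ℕ) + 318828 := by
  unfold cd
  push_cast
  rw [← Finset.sum_sub_distrib]
  congr 1
  apply Finset.sum_congr rfl
  intro j _
  rw [h j]
  ring

lemma sumW_le (P : Fin 9 → ℕ) (m : ℕ) (h : ∑ j, P j = m) : ∑ j, W j * P j ≤ 79707 * m := by
  rw [← h, Finset.mul_sum]
  exact Finset.sum_le_sum (fun j _ => Nat.mul_le_mul_right _ (W_le j))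

lemma cd_range (G : SimpleGraph (Fin 9)) (m : ℕ) (hm : m ≤ 4) (x : Fin 9 → ℤ) (hx : x ∈ B G m) :
    0 ≤ cd x ∧ cd x < 637664 := by
  obtain ⟨P, Q, h1, h2, h3⟩ := B_split G m x hx
  rw [cd_eq x P Q h3]
  have h4 := sumW_le P m h1
  have h5 := sumW_le Q m h2
  have h6 : 79707 * m ≤ 318828 := by omega
  constructor
  · have : ((∑ j, W j * Q j : ℕ) : ℤ) ≤ 318828 := by exact_mod_cast h5.trans h6
    have : (0 : ℤ) ≤ ((∑ j, W j * P j : ℕ) : ℤ) := Int.natCast_nonneg _
    linarith
  · have : ((∑ j, W j * P j : ℕ) : ℤ) ≤ 318828 := by exact_mod_cast h4.trans h6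
    have : (0 : ℤ) ≤ ((∑ j, W j * Q j : ℕ) : ℤ) := Int.natCast_nonneg _
    linarith

lemma cd_inj (G : SimpleGraph (Fin 9)) : Set.InjOn cd (B G 4) := by
  intro x hx y hy h
  obtain ⟨P, Q, h1, h2, h3⟩ := B_split G 4 x hx
  obtain ⟨P', Q', h1', h2', h3'⟩ := B_split G 4 y hy
  rw [cd_eq x P Q h3, cd_eq y P' Q' h3'] at h
  have h4 : (fun j => P j + Q' j) = (fun j => P' j + Q j) := by
    apply W_inj
    · rw [Finset.sum_add_distrib, h1, h2']
    · rw [Finset.sum_add_distrib, h1', h2]
    · simp only [mul_add, Finset.sum_add_distrib]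
      omega
  funext j
  have h5 : P j + Q' j = P' j + Q j := congrFun h4 j
  rw [h3 j, h3' j]
  omega

/-! ### Bit sets of the balls -/

/-- the differences of the weights along the edges -/
def kl (E : List (Fin 9 × Fin 9)) : List ℕ := E.map (fun p => W p.2 - W p.1)

lemma cd_sub_ev (x : Fin 9 → ℤ) (a b : Fin 9) :
    cd (x - ev a b) = cd x - (W a : ℤ) + W b := by
  unfold cd
  have h1 : ∑ j, (W j : ℤ) * (x - ev a b) j = ∑ j, (W j : ℤ) * x j - ∑ j, (W j : ℤ) * ev a b j := by
    rw [← Finset.sum_sub_distrib]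
    apply Finset.sum_congr rfl
    intro j _
    rw [Pi.sub_apply]
    ring
  have h2 : ∑ j, (W j : ℤ) * ev a b j = (W a : ℤ) - W b := pr_ev (fun j => (W j : ℤ)) a b
  rw [h1, h2]
  ring

lemma ball_testBit (E : List (Fin 9 × Fin 9)) (hE : ∀ p ∈ E, p.1 ≠ p.2 ∧ W p.1 ≤ W p.2) (m : ℕ)
    (hm : m ≤ 4) (i : ℕ) :
    (ball (kl E) m).testBit i = true ↔ ∃ x ∈ B (GE E) m, cd x = i := by
  induction m generalizing i with
  | zero =>
    have h0 : ball (kl E) 0 = 1 <<< 318828 := rfl
    have h00 : (ball (kl E) 0).testBit i = true ↔ 318828 = i := by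
      rw [h0, Nat.one_shiftLeft, Nat.testBit_two_pow, decide_eq_true_eq]
    rw [h00]
    have h1 : cd 0 = (318828 : ℕ) := by
      unfold cd
      simp
    constructor
    · rintro rfl
      exact ⟨0, rfl, h1⟩
    · rintro ⟨x, hx, h2⟩
      have h3 : x = 0 := hx
      rw [h3, h1] at h2
      exact_mod_cast h2
  | succ m ih =>
    have ih' := ih (by omega)
    have h0 : ball (kl E) (m + 1) = (kl E).foldl (fun acc k => Nat.lor (Nat.lor acc
      (Nat.shiftLeft (ball (kl E) m) k)) (Nat.shiftRight (ball (kl E) m) k)) (ball (kl E) m) := rfl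
    rw [h0, testBit_foldl, ih']
    constructor
    · rintro (⟨x, hx, h⟩ | ⟨k, hk, h⟩)
      · exact ⟨x, Or.inl hx, h⟩
      · unfold kl at hk
        rw [List.mem_map] at hk
        obtain ⟨⟨a, b⟩, hab, hk⟩ := hk
        obtain ⟨h1, h2⟩ := hE _ hab
        simp only at hk h1 h2
        have hkZ : (k : ℤ) = W b - W a := by rw [← hk]; push_cast [h2]; ring
        rcases h with ⟨h3, h4⟩ | h4
        · obtain ⟨x, hx, h5⟩ := (ih' _).mp h4
          refine ⟨x + ev b a, Or.inr ⟨b, a, ⟨h1.symm, Or.inr hab⟩, ?_⟩, ?_⟩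
          · rw [add_sub_cancel_right]
            exact hx
          · have h6 := cd_sub_ev (x + ev b a) b a
            rw [add_sub_cancel_right, h5] at h6
            push_cast [h3] at h6
            linarith
        · obtain ⟨x, hx, h5⟩ := (ih' _).mp h4
          refine ⟨x + ev a b, Or.inr ⟨a, b, ⟨h1, Or.inl hab⟩, ?_⟩, ?_⟩
          · rw [add_sub_cancel_right]
            exact hx
          · have h6 := cd_sub_ev (x + ev a b) a b
            rw [add_sub_cancel_right, h5] at h6
            push_cast at h6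
            linarith
    · rintro ⟨x, hx | ⟨a, b, hab, hx⟩, h⟩
      · exact Or.inl ⟨x, hx, h⟩
      · right
        have h6 := cd_sub_ev x a b
        have h7 := cd_range (GE E) m (by omega) _ hx
        rcases hab.2 with hab' | hab'
        · obtain ⟨h1, h2⟩ := hE _ hab'
          simp only at h1 h2
          refine ⟨W b - W a, ?_, Or.inr ((ih' _).mpr ⟨_, hx, ?_⟩)⟩
          · unfold kl
            rw [List.mem_map]
            exact ⟨(a, b), hab', rfl⟩
          · rw [h6, h]
            push_cast [h2]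
            ring
        · obtain ⟨h1, h2⟩ := hE _ hab'
          simp only at h1 h2
          have h8 : W a - W b ≤ i := by omega
          refine ⟨W a - W b, ?_, Or.inl ⟨h8, (ih' _).mpr ⟨_, hx, ?_⟩⟩⟩
          · unfold kl
            rw [List.mem_map]
            exact ⟨(b, a), hab', rfl⟩
          · rw [h6, h]
            push_cast [h2, h8]
            ring

/-- the number of vectors in the ball -/
theorem ncard_B (E : List (Fin 9 × Fin 9)) (hE : ∀ p ∈ E, p.1 ≠ p.2 ∧ W p.1 ≤ W p.2) (m : ℕ)
    (hm : m ≤ 4) : (B (GE E) m).ncard = pop F (ball (kl E) m) := by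
  have hsub : B (GE E) m ⊆ B (GE E) 4 := by
    intro x hx
    have h1 : ∀ k, x ∈ B (GE E) (m + k) := by
      intro k
      induction k with
      | zero => exact hx
      | succ k ih => exact B_mono _ _ ih
    have h2 := h1 (4 - m)
    rwa [Nat.add_sub_cancel' hm] at h2
  have hinj : Set.InjOn (fun x => (cd x).toNat) (B (GE E) m) := by
    intro x hx y hy h
    have h1 := cd_range _ m hm x hx
    have h2 := cd_range _ m hm y hy
    simp only at h
    exact cd_inj (GE E) (hsub hx) (hsub hy) (by omega)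
  rw [← hinj.ncard_image, pop_eq F _ (by unfold F; norm_num), ← Set.ncard_coe_finset]
  congr 1
  ext i
  rw [Finset.mem_coe, Finset.mem_filter, Finset.mem_range, ball_testBit E hE m hm, Set.mem_image]
  constructor
  · rintro ⟨x, hx, h⟩
    have h1 := cd_range _ m hm x hx
    refine ⟨by unfold F; omega, x, hx, by omega⟩
  · rintro ⟨_, x, hx, h⟩
    exact ⟨x, hx, by omega⟩

end Pool.Agent.H5SEP.Cnt
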