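import Pool.Agent.H5SEP.Stm

/-!
# The polynomial `Z_G` and the graph of the counterexample
-/

set_option autoImplicit false
open Finset

namespace Pool.Agent.H5SEP

open Pool.Agent.R135.SEP

/-- The `γ`-polynomial of `h` (and `0` if there is none). -/
noncomputable def gammaPolynomial (d : ℕ) (h : PowerSeries ℤ) : Polynomial ℤ := by
  classical
  exact if hh : ∃ γ, IsGammaPolynomial d h γ then hh.choose else 0

/-- `γ_{P_G}`, for a connected graph `G` on `n` vertices (so that `dim P_G = n - 1`). -/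
noncomputable def gammaP {n : ℕ} (G : SimpleGraph (Fin n)) : Polynomial ℤ :=
  gammaPolynomial (n - 1) (hStar (n - 1) (edgePolytope G))

/-- `Z_G(t) = ∑_{e ∈ E} (γ_{P_G}(t) - γ_{P_{G∖e}}(t))`. -/
noncomputable def Z {n : ℕ} (G : SimpleGraph (Fin n)) : Polynomial ℤ := by
  classical
  exact ∑ e ∈ G.edgeFinset, (gammaP G - gammaP (G.deleteEdges {e}))

/-- The `19` edges of the graph: the edges of a `K₅` on `{0, 1, 2, 3, 4}` except `01`, those of
a `K₄` on `{5, 6, 7, 8}`, and `05`, `06`, `17`, `18`. -/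
def edgeList : List (Fin 9 × Fin 9) :=
  [(0, 2), (0, 3), (0, 4), (1, 2), (1, 3), (1, 4), (2, 3), (2, 4), (3, 4), (0, 5), (0, 6), (1, 7),
    (1, 8), (5, 6), (5, 7), (5, 8), (6, 7), (6, 8), (7, 8)]

/-- The graph on `{0, …, 8}` with these edges. -/
def exampleGraph : SimpleGraph (Fin 9) :=
  SimpleGraph.fromRel (fun a b => (a, b) ∈ edgeList)

end Pool.Agent.H5SEP
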