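import Pool.Agent.H5SEP.Stm

/-!
# FEX: assembly of the complete unimodular fan of `P_G`
-/

set_option autoImplicit false
open Finset

namespace Pool.Agent.H5SEP.FEX

open Pool.Agent.R135.SEP Pool.Agent.H5SEP

variable {n : ℕ} {G : SimpleGraph (Fin n)} {M : ℤ} {w : Sym2 (Fin n) → ℤ}

lemma ev_inj {a b c d : Fin n} (hab : a ≠ b) (h : ev a b = ev c d) : a = c ∧ b = d := by
  have h1 := congrFun h a
  have h2 := congrFun h b
  unfold ev at h1 h2
  simp only [Pi.sub_apply, Pi.single_apply] at h1 h2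
  constructor
  · by_contra hc
    rw [if_pos trivial, if_neg hab, if_neg hc] at h1
    split_ifs at h1 <;> omega
  · by_contra hd
    rw [if_pos trivial, if_neg hab.symm, if_neg hd] at h2
    split_ifs at h2 <;> omega

lemma sum_ev (A : Finset (Fin n)) (a b : Fin n) :
    ∑ p ∈ A, ev a b p = (if a ∈ A then 1 else 0) - (if b ∈ A then 1 else 0) := by
  unfold ev
  simp only [Pi.sub_apply, Finset.sum_sub_distrib, Pi.single_apply]
  rw [Finset.sum_ite_eq', Finset.sum_ite_eq']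

lemma mem_TV {f : Fin n → ℤ} {v : Fin n → ℤ} :
    v ∈ TV G M w f ↔ ∃ a b, G.Adj a b ∧ f a - f b = M + w s(a, b) ∧ v = ev a b := by
  classical
  unfold TV
  rw [Finset.mem_image]
  constructor
  · rintro ⟨p, hp, rfl⟩
    rw [Finset.mem_filter] at hp
    exact ⟨p.1, p.2, hp.2.1, hp.2.2, rfl⟩
  · rintro ⟨a, b, h1, h2, rfl⟩
    exact ⟨(a, b), Finset.mem_filter.mpr ⟨Finset.mem_univ _, h1, h2⟩, rfl⟩

lemma ev_mem_TV {f : Fin n → ℤ} {a b : Fin n} (hab : G.Adj a b) :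
    ev a b ∈ TV G M w f ↔ f a - f b = M + w s(a, b) := by
  rw [mem_TV]
  constructor
  · rintro ⟨c, d, _, h2, h3⟩
    obtain ⟨rfl, rfl⟩ := ev_inj hab.ne h3
    exact h2
  · intro h
    exact ⟨a, b, hab, h, rfl⟩

lemma len_pos (hw : Gw n M w) (e : Sym2 (Fin n)) : 0 < M + w e := by
  have h1 := hw.pos e
  have h2 := hw.big
  have h3 : 0 ≤ ∑ e, w e := Finset.sum_nonneg (fun e _ => (hw.pos e).le)
  linarith

/-- the functional of a cut is dual to the tight vectors -/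
lemma cut_dual (hw : Gw n M w) {f : Fin n → ℤ} {a b : Fin n} {A : Finset (Fin n)}
    (hA : Cut G M w f a b A) {u : Fin n → ℤ} (hu : u ∈ TV G M w f) :
    ∑ p ∈ A, u p = if u = ev a b then 1 else 0 := by
  obtain ⟨c, d, hcd, hf, rfl⟩ := mem_TV.mp hu
  obtain ⟨hab, hfab, haA, hbA, hcut⟩ := hA
  rw [sum_ev]
  by_cases hc : c ∈ A
  · by_cases hd : d ∈ A
    · have hne : ev c d ≠ ev a b := by
        intro h
        obtain ⟨_, h2⟩ := ev_inj hcd.ne h
        rw [h2] at hd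
        exact hbA hd
      rw [if_pos hc, if_pos hd, if_neg hne]; ring
    · obtain ⟨h1, h2⟩ := hcut c d ⟨hcd, Or.inl hf⟩ hc hd
      rw [if_pos hc, if_neg hd, if_pos (by rw [h1, h2])]; ring
  · by_cases hd : d ∈ A
    · exfalso
      obtain ⟨h1, h2⟩ := hcut d c ⟨hcd.symm, Or.inr (by rw [Sym2.eq_swap]; exact hf)⟩ hd hc
      have h3 := len_pos hw s(a, b)
      rw [h1, h2, Sym2.eq_swap] at hf
      linarith
    · have hne : ev c d ≠ ev a b := by
        intro h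
        obtain ⟨h1, _⟩ := ev_inj hcd.ne h
        rw [h1] at hc
        exact hc haA
      rw [if_neg hc, if_neg hd, if_neg hne]; ring

lemma sum_smul_apply (A : Finset (Fin n)) (σ : Finset (Fin n → ℤ)) (c : (Fin n → ℤ) → ℤ) :
    ∑ p ∈ A, (∑ u ∈ σ, c u • u) p = ∑ u ∈ σ, c u * ∑ p ∈ A, u p := by
  simp only [Finset.sum_apply, Pi.smul_apply, smul_eq_mul]
  rw [Finset.sum_comm]
  apply Finset.sum_congr rfl
  intro u _
  rw [Finset.mul_sum]

lemma cut_coeff (hw : Gw n M w) {f : Fin n → ℤ} {a b : Fin n} {A : Finset (Fin n)}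
    (hA : Cut G M w f a b A) (c : (Fin n → ℤ) → ℤ) :
    ∑ p ∈ A, (∑ u ∈ TV G M w f, c u • u) p = c (ev a b) := by
  rw [sum_smul_apply]
  have h1 : ev a b ∈ TV G M w f := (ev_mem_TV hA.1).mpr hA.2.1
  rw [Finset.sum_eq_single_of_mem _ h1]
  · rw [cut_dual hw hA h1, if_pos rfl, mul_one]
  · intro u hu hne
    rw [cut_dual hw hA hu, if_neg hne, mul_zero]

/-- a potential pairs with a tight vector of another potential below its length -/
lemma pr_le {f g : Fin n → ℤ} (hf : LipW G M w f) {v : Fin n → ℤ} (hv : v ∈ TV G M w g) :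
    pr f v ≤ pr g v := by
  obtain ⟨a, b, hab, hg, rfl⟩ := mem_TV.mp hv
  rw [pr_ev, pr_ev, hg]
  exact hf a b hab

lemma mem_of_pr_eq {f g : Fin n → ℤ} {v : Fin n → ℤ} (hv : v ∈ TV G M w g)
    (h : pr f v = pr g v) : v ∈ TV G M w f := by
  obtain ⟨a, b, hab, hg, rfl⟩ := mem_TV.mp hv
  rw [pr_ev, pr_ev, hg] at h
  exact (ev_mem_TV hab).mpr h

lemma pr_sum_nat (f : Fin n → ℤ) (τ : Finset (Fin n → ℤ)) (c : (Fin n → ℤ) → ℕ) :
    pr f (∑ v ∈ τ, (c v : ℤ) • v) = ∑ v ∈ τ, (c v : ℤ) * pr f v :=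
  pr_sum_right f τ (fun v => (c v : ℤ))

/-- the supports of two representations are tight for both potentials -/
lemma supp_tight {f g : Fin n → ℤ} (hf : LipW G M w f) (hg : LipW G M w g)
    (c c' : (Fin n → ℤ) → ℕ)
    (h : ∑ v ∈ TV G M w f, (c v : ℤ) • v = ∑ v ∈ TV G M w g, (c' v : ℤ) • v) :
    ∀ v ∈ TV G M w g, 0 < c' v → v ∈ TV G M w f := by
  have h1 : pr f (∑ v ∈ TV G M w g, (c' v : ℤ) • v) ≤ pr g (∑ v ∈ TV G M w g, (c' v : ℤ) • v) := by
    rw [pr_sum_nat, pr_sum_nat]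
    exact Finset.sum_le_sum (fun v hv => mul_le_mul_of_nonneg_left (pr_le hf hv)
      (Int.natCast_nonneg _))
  have h2 : pr g (∑ v ∈ TV G M w f, (c v : ℤ) • v) ≤ pr f (∑ v ∈ TV G M w f, (c v : ℤ) • v) := by
    rw [pr_sum_nat, pr_sum_nat]
    exact Finset.sum_le_sum (fun v hv => mul_le_mul_of_nonneg_left (pr_le hg hv)
      (Int.natCast_nonneg _))
  rw [h] at h2
  have h3 := le_antisymm h1 h2
  rw [pr_sum_nat, pr_sum_nat] at h3
  have h4 := (Finset.sum_eq_sum_iff_of_le (fun v hv => mul_le_mul_of_nonneg_left (pr_le hf hv)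
      (Int.natCast_nonneg (c' v)))).mp h3
  intro v hv hc
  have h5 := h4 v hv
  have h6 : ((c' v : ℕ) : ℤ) ≠ 0 := by
    have : c' v ≠ 0 := by omega
    exact_mod_cast this
  exact mem_of_pr_eq hv (mul_left_cancel₀ h6 h5)

theorem t : Pool.Agent.H5SEP.FEX := by
  classical
  intro hLEN hACY hCOV hUNP hCUT hCARD hSPAN n G hG hn
  obtain ⟨M, w, hw⟩ := hLEN n
  set E : Finset (Fin n → ℤ) :=
    (univ.filter (fun p : Fin n × Fin n => G.Adj p.1 p.2)).image (fun p => ev p.1 p.2) with hE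
  set Γ : Finset (Finset (Fin n → ℤ)) := E.powerset.filter (fun σ => ∃ f, LipW G M w f ∧
    (TG G M w f).Connected ∧ σ = TV G M w f) with hΓ
  have hmemΓ : ∀ f, LipW G M w f → (TG G M w f).Connected → TV G M w f ∈ Γ := by
    intro f hf hc
    rw [hΓ, Finset.mem_filter, Finset.mem_powerset]
    refine ⟨?_, f, hf, hc, rfl⟩
    intro v hv
    obtain ⟨a, b, hab, _, rfl⟩ := mem_TV.mp hv
    rw [hE, Finset.mem_image]
    exact ⟨(a, b), Finset.mem_filter.mpr ⟨Finset.mem_univ _, hab⟩, rfl⟩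
  have h1 : ∀ σ, ∃ f, σ ∈ Γ → LipW G M w f ∧ (TG G M w f).Connected ∧ σ = TV G M w f := by
    intro σ
    by_cases hσ : σ ∈ Γ
    · rw [hΓ, Finset.mem_filter] at hσ
      obtain ⟨_, f, hf⟩ := hσ
      exact ⟨f, fun _ => hf⟩
    · exact ⟨0, fun h => absurd h hσ⟩
  choose f hf using h1
  have htree : ∀ σ ∈ Γ, (TG G M w (f σ)).IsTree :=
    fun σ hσ => ⟨(hf σ hσ).2.1, hACY n G M w (f σ) hw⟩
  have h2 : ∀ σ, ∃ F : Fin n → ℤ, σ ∈ Γ → Lip G F ∧
      ∀ a b, G.Adj a b → f σ a - f σ b = M + w s(a, b) → F a - F b = 1 := by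
    intro σ
    by_cases hσ : σ ∈ Γ
    · obtain ⟨F, hF⟩ := hUNP n G M w (f σ) hw (hf σ hσ).1 (htree σ hσ)
      exact ⟨F, fun _ => hF⟩
    · exact ⟨0, fun h => absurd h hσ⟩
  choose F hF using h2
  have h3 : ∀ (σ : Finset (Fin n → ℤ)) (v : Fin n → ℤ), ∃ A : Finset (Fin n), σ ∈ Γ → v ∈ σ →
      ∃ a b, v = ev a b ∧ Cut G M w (f σ) a b A := by
    intro σ v
    by_cases hσ : σ ∈ Γ
    · by_cases hv : v ∈ σ
      · have hv' := hv
        rw [(hf σ hσ).2.2] at hv'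
        obtain ⟨a, b, hab, hfab, rfl⟩ := mem_TV.mp hv'
        obtain ⟨A, hA⟩ := hCUT n G M w (f σ) hw (htree σ hσ) a b hab hfab
        exact ⟨A, fun _ _ => ⟨a, b, rfl, hA⟩⟩
      · exact ⟨∅, fun _ h => absurd h hv⟩
    · exact ⟨∅, fun h => absurd h hσ⟩
  choose A hA using h3
  have hcoeff : ∀ σ ∈ Γ, ∀ v ∈ σ, ∀ c : (Fin n → ℤ) → ℤ,
      ∑ p ∈ A σ v, (∑ u ∈ σ, c u • u) p = c v := by
    intro σ hσ v hv c
    obtain ⟨a, b, rfl, hcut⟩ := hA σ v hσ hv
    have h4 := cut_coeff hw hcut c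
    rw [← (hf σ hσ).2.2] at h4
    exact h4
  refine ⟨Γ, F, fun σ v x => ∑ p ∈ A σ v, x p, ⟨hG, ?_, ?_, ?_, ?_, ?_, ?_, ?_, ?_, ?_⟩⟩
  · -- card
    intro σ hσ
    have h4 := hCARD n G M w (f σ) hw (htree σ hσ)
    rw [← (hf σ hσ).2.2] at h4
    exact h4
  · -- edge
    intro σ hσ v hv
    rw [(hf σ hσ).2.2] at hv
    obtain ⟨a, b, hab, _, h⟩ := mem_TV.mp hv
    exact ⟨a, b, hab, h⟩
  · -- lip
    intro σ hσ
    exact (hF σ hσ).1
  · -- one
    intro σ hσ v hv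
    rw [(hf σ hσ).2.2] at hv
    obtain ⟨a, b, hab, hfab, rfl⟩ := mem_TV.mp hv
    rw [pr_ev]
    exact (hF σ hσ).2 a b hab hfab
  · -- rep
    intro σ hσ x hx
    obtain ⟨c, hc⟩ := hSPAN n G M w (f σ) (hf σ hσ).2.1 x hx
    rw [← (hf σ hσ).2.2] at hc
    conv_rhs => rw [← hc]
    apply Finset.sum_congr rfl
    intro v hv
    have h4 := hcoeff σ hσ v hv c
    rw [hc] at h4
    show (∑ p ∈ A σ v, x p) • v = c v • v
    rw [h4]
  · -- indep
    intro σ hσ c hc v hv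
    have h4 := hcoeff σ hσ v hv c
    rw [hc] at h4
    rw [← h4]
    exact Finset.sum_eq_zero (fun p _ => rfl)
  · -- sub
    intro σ hσ v hv
    obtain ⟨a, b, _, hcut⟩ := hA σ v hσ hv
    refine ⟨A σ v, ⟨a, hcut.2.2.1⟩, ?_, fun x _ => rfl⟩
    intro h
    apply hcut.2.2.2.1
    rw [h]
    exact Finset.mem_univ _
  · -- uniq
    intro σ hσ τ hτ c c' h v hv hcv
    have hσ' := (hf σ hσ).2.2
    have hτ' := (hf τ hτ).2.2
    have h' := h
    rw [hσ', hτ'] at h'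
    have hst : ∀ u ∈ σ, 0 < c u → u ∈ τ := by
      intro u hu hcu
      rw [hσ'] at hu
      rw [hτ']
      exact supp_tight (hf τ hτ).1 (hf σ hσ).1 c' c h'.symm u hu hcu
    have hvτ : v ∈ τ := hst v hv hcv
    refine ⟨hvτ, ?_⟩
    have h4 := hcoeff τ hτ v hvτ (fun u => (c' u : ℤ))
    have h5 : ∑ p ∈ A τ v, (∑ u ∈ σ, (c u : ℤ) • u) p = c v := by
      rw [sum_smul_apply (A τ v) σ (fun u => (c u : ℤ))]
      rw [Finset.sum_eq_single_of_mem v hv]
      · obtain ⟨a, b, hab, hcut⟩ := hA τ v hτ hvτ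
        have h6 : v ∈ TV G M w (f τ) := by rw [← hτ']; exact hvτ
        rw [cut_dual hw hcut h6, if_pos hab, mul_one]
      · intro u hu hne
        rcases Nat.eq_zero_or_pos (c u) with h7 | h7
        · rw [h7]; simp
        · obtain ⟨a, b, hab, hcut⟩ := hA τ v hτ hvτ
          have h6 : u ∈ TV G M w (f τ) := by rw [← hτ']; exact hst u hu h7
          rw [cut_dual hw hcut h6, if_neg (by rw [← hab]; exact hne), mul_zero]
    rw [h] at h5
    have h6 : ((c' v : ℕ) : ℤ) = c v := h4.symm.trans h5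
    exact_mod_cast h6
  · -- cover
    intro y hy hgen
    obtain ⟨g, hg, hconn, hcov⟩ := hCOV n G M w hG hw y hy hgen
    refine ⟨TV G M w g, hmemΓ g hg hconn, ?_⟩
    intro v hv
    have hσ := hmemΓ g hg hconn
    have hσ' := (hf _ hσ).2.2
    obtain ⟨a, b, hab, hcut⟩ := hA (TV G M w g) v hσ hv
    show 0 ≤ ∑ p ∈ A (TV G M w g) v, y p
    apply hcov a b
    have htight : ∀ c d, G.Adj c d →
        (g c - g d = M + w s(c, d) ↔ f (TV G M w g) c - f (TV G M w g) d = M + w s(c, d)) := by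
      intro c d hcd
      rw [← ev_mem_TV hcd, ← ev_mem_TV hcd, ← hσ']
    refine ⟨hcut.1, (htight a b hcut.1).mpr hcut.2.1, hcut.2.2.1, hcut.2.2.2.1, ?_⟩
    intro c d hcd
    apply hcut.2.2.2.2
    refine ⟨hcd.1, ?_⟩
    rcases hcd.2 with h | h
    · exact Or.inl ((htight c d hcd.1).mp h)
    · right
      have h4 : g d - g c = M + w s(d, c) := by rw [Sym2.eq_swap]; exact h
      have h5 := (htight d c hcd.1.symm).mp h4
      rw [Sym2.eq_swap]
      exact h5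

end Pool.Agent.H5SEP.FEX
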