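import Pool.Agent.H5SEP.Stm

/-!
# FPAL: a complete unimodular fan makes the h*-polynomial palindromic (project SEP of helper5)
-/

set_option autoImplicit false
open Finset
open scoped Pointwise

namespace Pool.Agent.H5SEP

open Pool.Agent.R135.SEP

variable {n : ℕ} {G : SimpleGraph (Fin n)} {Γ : Finset (Finset (Fin n → ℤ))}
    {F : Finset (Fin n → ℤ) → (Fin n → ℤ)}
    {co : Finset (Fin n → ℤ) → (Fin n → ℤ) → (Fin n → ℤ) → ℤ}

namespace Fan

lemma balv (D : Fan G Γ F co) {σ : Finset (Fin n → ℤ)} (hσ : σ ∈ Γ) {v : Fin n → ℤ}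
    (hv : v ∈ σ) : bal v := by
  obtain ⟨a, b, _, rfl⟩ := D.edge σ hσ v hv
  exact bal_ev a b

lemma inj (D : Fan G Γ F co) {σ τ : Finset (Fin n → ℤ)} (hσ : σ ∈ Γ) (hτ : τ ⊆ σ)
    (c c' : (Fin n → ℤ) → ℤ) (h : ∑ v ∈ τ, c v • v = ∑ v ∈ τ, c' v • v) :
    ∀ v ∈ τ, c v = c' v := by
  classical
  intro v hv
  have h1 : ∑ v ∈ σ, (if v ∈ τ then c v - c' v else 0) • v = 0 := by
    have h2 : ∀ v ∈ σ, (if v ∈ τ then c v - c' v else 0) • v =
        if v ∈ τ then (c v - c' v) • v else 0 := by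
      intro v _
      split_ifs
      · rfl
      · rw [zero_smul]
    rw [Finset.sum_congr rfl h2, ← Finset.sum_filter, Finset.filter_mem_eq_inter,
      Finset.inter_eq_right.mpr hτ]
    simp only [sub_smul]
    rw [Finset.sum_sub_distrib, h, sub_self]
  have h3 := D.indep σ hσ _ h1 v (hτ hv)
  rw [if_pos hv] at h3
  linarith

lemma co_sum (D : Fan G Γ F co) {σ : Finset (Fin n → ℤ)} (hσ : σ ∈ Γ)
    (c : (Fin n → ℤ) → ℤ) : ∀ v ∈ σ, co σ v (∑ w ∈ σ, c w • w) = c v := by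
  have h1 := D.rep σ hσ (∑ w ∈ σ, c w • w) (bal_sum _ _ (fun v hv => D.balv hσ hv))
  exact D.inj hσ (Finset.Subset.refl _) _ _ h1

lemma gauge (D : Fan G Γ F co) {σ τ : Finset (Fin n → ℤ)} (hσ : σ ∈ Γ) (hτ : τ ⊆ σ)
    (c : (Fin n → ℤ) → ℤ) (hc : ∀ v ∈ τ, 0 ≤ c v) :
    nu G (∑ v ∈ τ, c v • v) = ∑ v ∈ τ, c v := by
  have hb : bal (∑ v ∈ τ, c v • v) := bal_sum _ _ (fun v hv => D.balv hσ (hτ hv))
  have h1 : pr (F σ) (∑ v ∈ τ, c v • v) = ∑ v ∈ τ, c v := by
    rw [pr_sum_right]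
    apply Finset.sum_congr rfl
    intro v hv
    rw [D.one σ hσ v (hτ hv), mul_one]
  have h2 : nu G (∑ v ∈ τ, c v • v) ≤ ∑ v ∈ τ, c v := by
    obtain ⟨f, hf, h3⟩ := nu_attained D.conn hb
    rw [← h3, pr_sum_right]
    apply Finset.sum_le_sum
    intro v hv
    obtain ⟨a, b, hab, hv2⟩ := D.edge σ hσ v (hτ hv)
    have h4 : pr f v ≤ 1 := by
      rw [hv2, pr_ev]
      exact hf a b hab
    calc c v * pr f v ≤ c v * 1 := mul_le_mul_of_nonneg_left h4 (hc v hv)
      _ = c v := mul_one _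
  apply le_antisymm h2
  rw [← h1]
  exact le_nu D.conn hb (D.lip σ hσ)

lemma co_pert (D : Fan G Γ F co) {σ : Finset (Fin n → ℤ)} (hσ : σ ∈ Γ) {v : Fin n → ℤ}
    (hv : v ∈ σ) {E x : Fin n → ℤ} (hE : bal E) (hx : bal x) (K s : ℤ) :
    co σ v (pert K s E x) = K * co σ v x + s * co σ v E := by
  obtain ⟨A, _, _, h⟩ := D.sub σ hσ v hv
  rw [h (pert K s E x) ((hx.smul _).add (hE.smul _)), h _ hx, h _ hE]
  unfold pert
  simp only [Pi.add_apply, Pi.smul_apply, smul_eq_mul, Finset.sum_add_distrib, Finset.mul_sum]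

lemma co_le (D : Fan G Γ F co) {σ : Finset (Fin n → ℤ)} (hσ : σ ∈ Γ) {v : Fin n → ℤ}
    (hv : v ∈ σ) {E : Fin n → ℤ} (hE : bal E) : |co σ v E| ≤ nrm E := by
  obtain ⟨A, _, _, h⟩ := D.sub σ hσ v hv
  rw [h _ hE]
  exact subsum_le E A

lemma co_ne (D : Fan G Γ F co) {σ : Finset (Fin n → ℤ)} (hσ : σ ∈ Γ) {v : Fin n → ℤ}
    (hv : v ∈ σ) {E : Fin n → ℤ} (hE : bal E) (hgen : Gen E) : co σ v E ≠ 0 := by
  obtain ⟨A, hA, hA', h⟩ := D.sub σ hσ v hv
  rw [h _ hE]
  exact hgen A hA hA'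

/-- every balanced vector lies in a half-open cone -/
lemma half_exists (D : Fan G Γ F co) {E : Fin n → ℤ} (hE : bal E) (hgen : Gen E) {s : ℤ}
    (hs : s = 1 ∨ s = -1) {x : Fin n → ℤ} (hx : bal x) :
    ∃ σ ∈ Γ, x ∈ piece σ (neg co σ s E) := by
  set K : ℤ := 1 + nrm E with hK
  have hnn := nrm_nonneg E
  have hs0 : s ≠ 0 := by rcases hs with rfl | rfl <;> norm_num
  have hy : bal (pert K s E x) := (hx.smul _).add (hE.smul _)
  have hnrm : nrm (s • E) = nrm E := by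
    unfold nrm
    apply Finset.sum_congr rfl
    intro p _
    rcases hs with rfl | rfl <;> simp
  have hygen : Gen (pert K s E x) :=
    gen_add (gen_smul hgen hs0) (by rw [hnrm]; linarith)
  obtain ⟨σ, hσ, hc⟩ := D.cover _ hy hygen
  have h6 : ∀ v ∈ σ, 0 ≤ co σ v x ∧ (s * co σ v E < 0 → 1 ≤ co σ v x) := by
    intro v hv
    have h7 := hc v hv
    rw [D.co_pert hσ hv hE hx] at h7
    have h8 := abs_le.mp (D.co_le hσ hv hE)
    have h9 : s * co σ v E ≤ nrm E := by rcases hs with rfl | rfl <;> linarith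
    have h10 : 0 ≤ co σ v x := by
      by_contra hneg
      have h11 : K * co σ v x ≤ K * (-1) := mul_le_mul_of_nonneg_left (by omega) (by linarith)
      linarith
    refine ⟨h10, fun h11 => ?_⟩
    by_contra h12
    have h13 : co σ v x = 0 := by omega
    rw [h13, mul_zero, zero_add] at h7
    linarith
  refine ⟨σ, hσ, fun v => (co σ v x).toNat, ?_, ?_⟩
  · intro v hv
    unfold neg at hv
    rw [Finset.mem_filter] at hv
    have := (h6 v hv.1).2 hv.2
    show 1 ≤ (co σ v x).toNat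
    omega
  · conv_rhs => rw [← D.rep σ hσ x hx]
    apply Finset.sum_congr rfl
    intro v hv
    rw [Int.toNat_of_nonneg (h6 v hv).1]

lemma half_pos (D : Fan G Γ F co) {E : Fin n → ℤ} (hE : bal E) (hgen : Gen E) {s : ℤ}
    (hs : s = 1 ∨ s = -1) {x : Fin n → ℤ} (hx : bal x) {σ : Finset (Fin n → ℤ)} (hσ : σ ∈ Γ)
    (hxσ : x ∈ piece σ (neg co σ s E)) {K : ℤ} (hK : nrm E < K) :
    ∀ v ∈ σ, 0 < co σ v (pert K s E x) := by
  intro v hv
  obtain ⟨c, hc, hcx⟩ := hxσ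
  rw [D.co_pert hσ hv hE hx]
  have h1 : co σ v x = c v := by
    rw [← hcx]
    exact D.co_sum hσ (fun w => (c w : ℤ)) v hv
  rw [h1]
  have h8 := abs_le.mp (D.co_le hσ hv hE)
  have hnn := nrm_nonneg E
  rcases Nat.eq_zero_or_pos (c v) with h2 | h2
  · rw [h2, Nat.cast_zero, mul_zero, zero_add]
    have h3 : ¬ s * co σ v E < 0 := by
      intro h4
      have h5 := hc v (by unfold neg; rw [Finset.mem_filter]; exact ⟨hv, h4⟩)
      omega
    have h4 := D.co_ne hσ hv hE hgen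
    have h5 : s * co σ v E ≠ 0 := by
      rcases hs with rfl | rfl
      · simpa using h4
      · simpa using h4
    omega
  · have h9 : -nrm E ≤ s * co σ v E := by rcases hs with rfl | rfl <;> linarith
    have h10 : K * 1 ≤ K * (c v : ℤ) :=
      mul_le_mul_of_nonneg_left (by exact_mod_cast h2) (by linarith)
    linarith

lemma half_unique (D : Fan G Γ F co) {E : Fin n → ℤ} (hE : bal E) (hgen : Gen E) {s : ℤ}
    (hs : s = 1 ∨ s = -1) {x : Fin n → ℤ} (hx : bal x)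
    {σ τ : Finset (Fin n → ℤ)} (hσ : σ ∈ Γ) (hτ : τ ∈ Γ) (hxσ : x ∈ piece σ (neg co σ s E))
    (hxτ : x ∈ piece τ (neg co τ s E)) : σ = τ := by
  set K : ℤ := 1 + nrm E with hK
  have hnn := nrm_nonneg E
  have hy : bal (pert K s E x) := (hx.smul _).add (hE.smul _)
  have h1 := D.half_pos hE hgen hs hx hσ hxσ (show nrm E < K by linarith)
  have h2 := D.half_pos hE hgen hs hx hτ hxτ (show nrm E < K by linarith)
  have key : ∀ {σ τ : Finset (Fin n → ℤ)}, σ ∈ Γ → τ ∈ Γ →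
      (∀ v ∈ σ, 0 < co σ v (pert K s E x)) → (∀ v ∈ τ, 0 < co τ v (pert K s E x)) → σ ⊆ τ := by
    intro σ τ hσ hτ h1 h2 v hv
    have h3 : ∑ v ∈ σ, (((co σ v (pert K s E x)).toNat : ℕ) : ℤ) • v =
        ∑ v ∈ τ, (((co τ v (pert K s E x)).toNat : ℕ) : ℤ) • v := by
      have h4 : ∀ v ∈ σ, (((co σ v (pert K s E x)).toNat : ℕ) : ℤ) • v =
          co σ v (pert K s E x) • v := by
        intro v hv
        rw [Int.toNat_of_nonneg (h1 v hv).le]
      have h5 : ∀ v ∈ τ, (((co τ v (pert K s E x)).toNat : ℕ) : ℤ) • v =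
          co τ v (pert K s E x) • v := by
        intro v hv
        rw [Int.toNat_of_nonneg (h2 v hv).le]
      rw [Finset.sum_congr rfl h4, Finset.sum_congr rfl h5, D.rep σ hσ _ hy, D.rep τ hτ _ hy]
    exact (D.uniq σ hσ τ hτ _ _ h3 v hv (by have := h1 v hv; omega)).1
  exact Finset.Subset.antisymm (key hσ hτ h1 h2) (key hτ hσ h2 h1)

lemma piece_bal (D : Fan G Γ F co) {σ N : Finset (Fin n → ℤ)} (hσ : σ ∈ Γ)
    {x : Fin n → ℤ} (hx : x ∈ piece σ N) : bal x := by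
  obtain ⟨c, _, rfl⟩ := hx
  exact bal_sum _ _ (fun v hv => D.balv hσ hv)

lemma gf_piece (D : Fan G Γ F co) {σ N : Finset (Fin n → ℤ)} (hσ : σ ∈ Γ)
    (hN : N ⊆ σ) :
    (1 - PowerSeries.X) ^ (n - 1) * gf (nu G) (piece σ N) = PowerSeries.X ^ N.card := by
  rw [← D.card σ hσ]
  apply Pool.Agent.R135.SEP.gf_piece _ _ _ hN
  · intro c c' h v hv
    have := D.inj hσ (Finset.Subset.refl _) _ _ h v hv
    exact_mod_cast this
  · intro c
    exact D.gauge hσ (Finset.Subset.refl _) _ (fun v _ => Int.natCast_nonneg _)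

lemma all_gf (D : Fan G Γ F co) {E : Fin n → ℤ} (hE : bal E) (hgen : Gen E) {s : ℤ}
    (hs : s = 1 ∨ s = -1) :
    (1 - PowerSeries.X) ^ (n - 1) * gf (nu G) {x | bal x} =
      ∑ σ ∈ Γ, PowerSeries.X ^ (neg co σ s E).card := by
  classical
  have hLF : LF (nu G) {x : Fin n → ℤ | bal x} := nu_LF D.conn
  rw [gf_biUnion Γ (fun σ => piece σ (neg co σ s E)) hLF, Finset.mul_sum]
  · apply Finset.sum_congr rfl
    intro σ hσ
    exact D.gf_piece hσ (Finset.filter_subset _ _)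
  · intro x
    constructor
    · intro hx
      exact D.half_exists hE hgen hs hx
    · rintro ⟨σ, hσ, hx⟩
      exact D.piece_bal hσ hx
  · intro σ hσ τ hτ x hxσ hxτ
    exact D.half_unique hE hgen hs (D.piece_bal hσ hxσ) hσ hτ hxσ hxτ

lemma card_neg (D : Fan G Γ F co) {E : Fin n → ℤ} (hE : bal E) (hgen : Gen E)
    {σ : Finset (Fin n → ℤ)} (hσ : σ ∈ Γ) :
    (neg co σ (-1) E).card + (neg co σ 1 E).card = n - 1 := by
  rw [← D.card σ hσ]
  have h1 : neg co σ (-1) E = σ.filter (fun v => ¬ (1 * co σ v E < 0)) := by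
    unfold neg
    apply Finset.filter_congr
    intro v hv
    have := D.co_ne hσ hv hE hgen
    omega
  rw [h1]
  unfold neg
  rw [add_comm]
  exact Finset.card_filter_add_card_filter_not _

end Fan

namespace FPAL

theorem t : FPAL := by
  classical
  intro n G Γ F co hn D
  obtain ⟨E, hE, hgen⟩ := exists_gen (show 0 < n by omega)
  set h : ℤ → Polynomial ℤ := fun s => ∑ σ ∈ Γ, Polynomial.X ^ (neg co σ s E).card with hh
  have hcoe : ∀ s, ((h s : Polynomial ℤ) : PowerSeries ℤ) =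
      ∑ σ ∈ Γ, PowerSeries.X ^ (neg co σ s E).card := by
    intro s
    rw [hh]
    rw [← Polynomial.coeToPowerSeries.ringHom_apply, map_sum]
    apply Finset.sum_congr rfl
    intro σ _
    rw [Polynomial.coeToPowerSeries.ringHom_apply, Polynomial.coe_pow, Polynomial.coe_X]
  have heq : h 1 = h (-1) := by
    apply Polynomial.coe_injective ℤ
    rw [hcoe, hcoe, ← D.all_gf hE hgen (Or.inl rfl), ← D.all_gf hE hgen (Or.inr rfl)]
  have hcoeff : ∀ s k, (h s).coeff k = ((Γ.filter (fun σ => k = (neg co σ s E).card)).card : ℤ) := by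
    intro s k
    rw [hh]
    simp only [Polynomial.finsetSum_coeff, Polynomial.coeff_X_pow]
    rw [Finset.sum_boole]
  refine ⟨h 1, ⟨?_, ?_⟩, ?_⟩
  · rw [hh]
    apply Polynomial.natDegree_sum_le_of_forall_le
    intro σ hσ
    rw [Polynomial.natDegree_X_pow]
    have := D.card_neg hE hgen hσ
    omega
  · intro k hk
    conv_rhs => rw [heq]
    rw [hcoeff, hcoeff]
    congr 2
    apply Finset.filter_congr
    intro σ hσ
    have := D.card_neg hE hgen hσ
    omega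
  · unfold hStar
    rw [pow_succ, mul_assoc, ehrhart_eq D.conn hn, hcoe, D.all_gf hE hgen (Or.inl rfl)]

end FPAL

end Pool.Agent.H5SEP
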