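import Pool.Agent.H5SEP.Stm

/-! Stub GAM of project SEP (helper5), proved by helper82. -/

set_option autoImplicit false
open Finset

namespace Pool.Agent.H5SEP.GAM

open Pool.Agent.R135.SEP Polynomial

lemma pal_pow (d : ℕ) (c : ℤ) : IsPalindromic d (C c * (1 + X) ^ d) := by
  constructor
  · calc (C c * (1 + X : ℤ[X]) ^ d).natDegree ≤ ((1 + X : ℤ[X]) ^ d).natDegree := natDegree_C_mul_le _ _
      _ ≤ d * (1 + X : ℤ[X]).natDegree := natDegree_pow_le
      _ ≤ d * 1 := by
          apply Nat.mul_le_mul_left
          rw [add_comm]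
          exact (natDegree_X_add_C (1 : ℤ)).le
      _ = d := mul_one d
  · intro k hk
    rw [coeff_C_mul, coeff_C_mul, coeff_one_add_X_pow, coeff_one_add_X_pow, Nat.choose_symm hk]

lemma pal_sub {d : ℕ} {p q : ℤ[X]} (hp : IsPalindromic d p) (hq : IsPalindromic d q) :
    IsPalindromic d (p - q) := by
  refine ⟨(natDegree_sub_le _ _).trans (max_le hp.1 hq.1), fun k hk => ?_⟩
  rw [coeff_sub, coeff_sub, hp.2 k hk, hq.2 k hk]

lemma main (d : ℕ) : ∀ h : ℤ[X], IsPalindromic d h → ∃ γ : ℤ[X], (∀ j, d / 2 < j → γ.coeff j = 0) ∧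
    h = ∑ j ∈ range (d / 2 + 1), C (γ.coeff j) * X ^ j * (1 + X) ^ (d - 2 * j) := by
  induction d using Nat.strong_induction_on with
  | _ d ih =>
    intro h hh
    rcases Nat.lt_or_ge d 2 with hd | hd
    · refine ⟨C (h.coeff 0), ?_, ?_⟩
      · intro j hj
        rw [coeff_C]
        rw [if_neg (by omega)]
      · have hd2 : d / 2 = 0 := by omega
        rw [hd2, zero_add, Finset.sum_range_one, coeff_C_zero, pow_zero, mul_one, mul_zero,
          Nat.sub_zero]
        ext k
        rw [coeff_C_mul, coeff_one_add_X_pow]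
        rcases Nat.lt_or_ge d k with hk | hk
        · rw [coeff_eq_zero_of_natDegree_lt (lt_of_le_of_lt hh.1 hk), Nat.choose_eq_zero_of_lt hk]
          simp
        · have h1 := hh.2 k hk
          have h2 : k = 0 ∨ d - k = 0 := by omega
          have h3 : d.choose k = 1 := by
            rcases h2 with h2 | h2
            · rw [h2, Nat.choose_zero_right]
            · have : k = d := by omega
              rw [this, Nat.choose_self]
          rw [h3]
          rcases h2 with h2 | h2
          · rw [h2]; simp
          · rw [h1, h2]; simp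
    · set q : ℤ[X] := h - C (h.coeff 0) * (1 + X) ^ d with hq
      have hqp : IsPalindromic d q := pal_sub hh (pal_pow d _)
      have hq0 : q.coeff 0 = 0 := by
        rw [hq, coeff_sub, coeff_C_mul, coeff_one_add_X_pow]
        simp
      have hqd : q.coeff d = 0 := by
        rw [hqp.2 d le_rfl, Nat.sub_self, hq0]
      have hdX : IsPalindromic (d - 2) q.divX := by
        constructor
        · rw [natDegree_le_iff_coeff_eq_zero]
          intro m hm
          rw [coeff_divX]
          rcases Nat.lt_or_ge d (m + 1) with h1 | h1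
          · exact coeff_eq_zero_of_natDegree_lt (lt_of_le_of_lt hqp.1 h1)
          · have : m + 1 = d := by omega
            rw [this, hqd]
        · intro k hk
          rw [coeff_divX, coeff_divX, hqp.2 (k + 1) (by omega)]
          congr 1
          omega
      obtain ⟨γ, hγ0, hγ⟩ := ih (d - 2) (by omega) q.divX hdX
      have hc0 : (C (h.coeff 0) + X * γ).coeff 0 = h.coeff 0 := by simp
      have hcs : ∀ j, (C (h.coeff 0) + X * γ).coeff (j + 1) = γ.coeff j := by
        intro j
        rw [coeff_add, coeff_C_succ, coeff_X_mul, zero_add]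
      refine ⟨C (h.coeff 0) + X * γ, ?_, ?_⟩
      · intro j hj
        obtain ⟨i, rfl⟩ : ∃ i, j = i + 1 := ⟨j - 1, by omega⟩
        rw [hcs]
        exact hγ0 i (by omega)
      · have e1 : d / 2 + 1 = ((d - 2) / 2 + 1) + 1 := by omega
        rw [e1, Finset.sum_range_succ', hc0, pow_zero, mul_one, mul_zero, Nat.sub_zero]
        have e2 : ∑ j ∈ range ((d - 2) / 2 + 1),
            C ((C (h.coeff 0) + X * γ).coeff (j + 1)) * X ^ (j + 1) * (1 + X) ^ (d - 2 * (j + 1)) =
            q.divX * X := by
          conv_rhs => rw [hγ]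
          rw [Finset.sum_mul]
          apply Finset.sum_congr rfl
          intro j _
          rw [hcs]
          have e3 : d - 2 * (j + 1) = d - 2 - 2 * j := by omega
          rw [e3]
          ring
        rw [e2]
        have e4 := divX_mul_X_add q
        rw [hq0, C_0, add_zero] at e4
        rw [e4, hq]
        ring

theorem t : Pool.Agent.H5SEP.GAM := by
  intro d h hh
  obtain ⟨γ, h1, h2⟩ := main d h hh
  refine ⟨γ, h1, ?_⟩
  conv_lhs => rw [h2]
  have := (map_sum (Polynomial.coeToPowerSeries.ringHom (R := ℤ))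
    (fun j => C (γ.coeff j) * X ^ j * (1 + X) ^ (d - 2 * j)) (range (d / 2 + 1)))
  rw [Polynomial.coeToPowerSeries.ringHom_apply] at this
  rw [this]
  apply Finset.sum_congr rfl
  intro j _
  rw [Polynomial.coeToPowerSeries.ringHom_apply]
  push_cast
  rfl

end Pool.Agent.H5SEP.GAM
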