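import Pool.Agent.H5SEP.Stm

/-! The stub LEN of project SEP: generic lengths exist. -/

set_option autoImplicit false
open Finset

namespace Pool.Agent.H5SEP.LEN

open Pool.Agent.R135.SEP Pool.Agent.H5SEP

lemma digits (N : ℕ) (ε : Fin N → ℤ) (h : ∀ i, ε i = -1 ∨ ε i = 0 ∨ ε i = 1)
    (h0 : ∑ i, ε i * 3 ^ (i : ℕ) = 0) : ∀ i, ε i = 0 := by
  induction N with
  | zero => intro i; exact i.elim0
  | succ N ih =>
    rw [Fin.sum_univ_succ] at h0
    have h1 : ∑ i : Fin N, ε i.succ * 3 ^ ((i.succ : Fin (N + 1)) : ℕ) =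
        3 * ∑ i : Fin N, ε i.succ * 3 ^ (i : ℕ) := by
      rw [Finset.mul_sum]
      refine Finset.sum_congr rfl (fun i _ => ?_)
      rw [Fin.val_succ, pow_succ]
      ring
    rw [h1] at h0
    have h2 : ε 0 + 3 * ∑ i : Fin N, ε i.succ * 3 ^ (i : ℕ) = 0 := by
      have : ε 0 * 3 ^ ((0 : Fin (N + 1)) : ℕ) = ε 0 := by simp
      rw [this] at h0
      exact h0
    have h3 : ε 0 = 0 ∧ ∑ i : Fin N, ε i.succ * 3 ^ (i : ℕ) = 0 := by
      generalize ∑ i : Fin N, ε i.succ * 3 ^ (i : ℕ) = S at h2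
      rcases h 0 with h4 | h4 | h4 <;> rw [h4] at h2 ⊢ <;> omega
    have h5 := ih (fun i => ε i.succ) (fun i => h _) h3.2
    intro i
    refine Fin.cases h3.1 (fun j => h5 j) i

lemma geo (N : ℕ) : 2 * ∑ i : Fin N, (3 : ℤ) ^ (i : ℕ) = 3 ^ N - 1 := by
  rw [Fin.sum_univ_eq_sum_range (fun i => (3 : ℤ) ^ i) N]
  induction N with
  | zero => simp
  | succ N ih => rw [Finset.sum_range_succ, mul_add, ih, pow_succ]; ring

theorem t : Pool.Agent.H5SEP.LEN := by
  intro n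
  classical
  set N := Fintype.card (Sym2 (Fin n)) with hN
  set E : Sym2 (Fin n) ≃ Fin N := Fintype.equivFin (Sym2 (Fin n)) with hE
  have hs : ∀ g : Fin N → ℤ, ∑ e, g (E e) = ∑ i, g i := fun g => Equiv.sum_comp E g
  have hp : (0 : ℤ) < 3 ^ N := by positivity
  have hW : 2 * ∑ e, (3 : ℤ) ^ (E e : ℕ) = 3 ^ N - 1 := by
    rw [hs (fun i => (3 : ℤ) ^ (i : ℕ))]
    exact geo N
  refine ⟨3 ^ (N + 2), fun e => 3 ^ (E e : ℕ), ⟨fun e => by positivity, ?_, ?_⟩⟩
  · have : (3 : ℤ) ^ (N + 2) = 9 * 3 ^ N := by rw [pow_add]; ring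
    rw [this]
    linarith
  · intro ε hε h0
    have h1 : (∑ e, ε e) * 3 ^ (N + 2) + ∑ e, ε e * 3 ^ (E e : ℕ) = 0 := by
      rw [Finset.sum_mul, ← Finset.sum_add_distrib, ← h0]
      exact Finset.sum_congr rfl (fun e _ => by ring)
    have h2 : |∑ e, ε e * 3 ^ (E e : ℕ)| ≤ ∑ e, (3 : ℤ) ^ (E e : ℕ) := by
      refine le_trans (Finset.abs_sum_le_sum_abs _ _) (Finset.sum_le_sum (fun e _ => ?_))
      rw [abs_mul, abs_of_pos (by positivity : (0 : ℤ) < 3 ^ (E e : ℕ))]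
      have : |ε e| ≤ 1 := by
        rcases hε e with h | h | h <;> rw [h] <;> norm_num
      calc |ε e| * 3 ^ (E e : ℕ) ≤ 1 * 3 ^ (E e : ℕ) :=
            mul_le_mul_of_nonneg_right this (by positivity)
        _ = _ := one_mul _
    have h3 : (3 : ℤ) ^ (N + 2) = 9 * 3 ^ N := by rw [pow_add]; ring
    rw [h3] at h1
    have h4 : ∑ e, ε e = 0 := by
      rw [abs_le] at h2
      rcases lt_trichotomy (∑ e, ε e) 0 with h | h | h
      · have h5 : ∑ e, ε e ≤ -1 := by omega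
        nlinarith
      · exact h
      · have h5 : 1 ≤ ∑ e, ε e := by omega
        nlinarith
    rw [h4, zero_mul, zero_add] at h1
    have h5 : ∑ i : Fin N, ε (E.symm i) * 3 ^ (i : ℕ) = 0 := by
      rw [← h1, ← hs (fun i => ε (E.symm i) * 3 ^ (i : ℕ))]
      exact Finset.sum_congr rfl (fun e _ => by rw [Equiv.symm_apply_apply])
    have h6 := digits N (fun i => ε (E.symm i)) (fun i => hε _) h5
    intro e
    have := h6 (E e)
    simpa using this

end Pool.Agent.H5SEP.LEN
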