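import Pool.Agent.H5SEP.FEX

/-!
# SPAN: the tight vectors of a connected `TG` generate the balanced vectors
-/

set_option autoImplicit false
open Finset

namespace Pool.Agent.H5SEP.SPAN

open Pool.Agent.R135.SEP Pool.Agent.H5SEP

theorem t : Pool.Agent.H5SEP.SPAN := by
  classical
  intro n G M w f hconn x hx
  set S : Submodule ℤ (Fin n → ℤ) := Submodule.span ℤ (TV G M w f : Set (Fin n → ℤ)) with hS
  have hadj : ∀ a b, (TG G M w f).Adj a b → ev a b ∈ S := by
    intro a b hab
    rcases hab.2 with h | h
    · exact Submodule.subset_span ((FEX.ev_mem_TV hab.1).mpr h)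
    · have h1 : ev b a ∈ TV G M w f := by
        rw [FEX.ev_mem_TV hab.1.symm, Sym2.eq_swap]
        exact h
      rw [ev_swap b a]
      exact S.neg_mem (Submodule.subset_span h1)
  have hall : ∀ a b, ev a b ∈ S := by
    intro a b
    obtain ⟨p⟩ := hconn.preconnected a b
    induction p with
    | nil =>
      rename_i u
      have : ev u u = 0 := by unfold ev; abel
      rw [this]
      exact S.zero_mem
    | cons h p ih =>
      rename_i u v z
      have h2 : ev u z = ev u v + ev v z := by unfold ev; abel
      rw [h2]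
      exact S.add_mem (hadj _ _ h) ih
  obtain ⟨r⟩ := hconn.nonempty
  have hxs : x = ∑ p, x p • ev p r := by
    ext q
    rw [Finset.sum_apply]
    unfold ev
    simp only [Pi.smul_apply, Pi.sub_apply, smul_eq_mul, mul_sub, Finset.sum_sub_distrib,
      Pi.single_apply]
    rw [← Finset.sum_mul]
    have : ∑ p, x p = 0 := hx
    rw [this]
    simp
  have hmem : x ∈ S := by
    rw [hxs]
    exact S.sum_mem (fun p _ => S.smul_mem _ (hall p r))
  rw [hS, Submodule.mem_span_finset] at hmem
  obtain ⟨c, _, hc⟩ := hmem
  exact ⟨c, hc⟩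

end Pool.Agent.H5SEP.SPAN
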