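import Pool.Agent.H5SEP.Stm

/-!
# UNI: uniqueness of the gamma polynomial (project SEP of helper5)
-/

set_option autoImplicit false
open Finset

namespace Pool.Agent.H5SEP.UNI

open Pool.Agent.R135.SEP

theorem t : UNI := by
  intro d h γ γ' h1 h2
  have key : ∀ j, γ.coeff j = γ'.coeff j := by
    intro j
    induction j using Nat.strong_induction_on with
    | _ j ih =>
      rcases lt_or_ge (d / 2) j with hj | hj
      · rw [h1.1 j hj, h2.1 j hj]
      · have e := congrArg (PowerSeries.coeff j) (h1.2.symm.trans h2.2)
        rw [map_sum, map_sum] at e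
        have e2 : ∑ i ∈ range (d / 2 + 1),
            (PowerSeries.coeff j (PowerSeries.C (γ.coeff i) * PowerSeries.X ^ i *
              (1 + PowerSeries.X) ^ (d - 2 * i)) -
            PowerSeries.coeff j (PowerSeries.C (γ'.coeff i) * PowerSeries.X ^ i *
              (1 + PowerSeries.X) ^ (d - 2 * i))) = 0 := by
          rw [Finset.sum_sub_distrib, e, sub_self]
        rw [Finset.sum_eq_single j] at e2
        · rw [mul_assoc, mul_assoc, PowerSeries.coeff_C_mul, PowerSeries.coeff_C_mul,
            PowerSeries.coeff_X_pow_mul', if_pos le_rfl, Nat.sub_self] at e2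
          have e3 : PowerSeries.coeff 0 ((1 + PowerSeries.X : PowerSeries ℤ) ^ (d - 2 * j)) = 1 := by
            rw [PowerSeries.coeff_zero_eq_constantCoeff_apply, map_pow, map_add, map_one,
              PowerSeries.constantCoeff_X, add_zero, one_pow]
          rw [e3] at e2
          linarith
        · intro i _ hij
          rcases lt_or_gt_of_ne hij with hlt | hgt
          · rw [ih i hlt, sub_self]
          · rw [mul_assoc, mul_assoc, PowerSeries.coeff_C_mul, PowerSeries.coeff_C_mul,
              PowerSeries.coeff_X_pow_mul', if_neg (by omega), mul_zero, mul_zero, sub_self]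
        · intro hn
          exact absurd (Finset.mem_range.mpr (by omega)) hn
  exact Polynomial.ext key

end Pool.Agent.H5SEP.UNI
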