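import Pool.Agent.H5SEP.Stm

/-! The stub UNP of project SEP: the unperturbed potential. -/

set_option autoImplicit false
open Finset

namespace Pool.Agent.H5SEP.UNP

open Pool.Agent.R135.SEP Pool.Agent.H5SEP

variable {n : ℕ} {G : SimpleGraph (Fin n)} {M : ℤ} {w : Sym2 (Fin n) → ℤ} {f : Fin n → ℤ}

lemma walk_dec (hw : ∀ e, 0 < w e) {u v : Fin n} (p : (TG G M w f).Walk u v) :
    ∃ k s : ℤ, f u - f v = M * k + s ∧ |s| ≤ (p.edges.map w).sum := by
  induction p with
  | nil => exact ⟨0, 0, by ring, by simp⟩
  | @cons a b c h q ih =>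
    obtain ⟨k, s, h1, h2⟩ := ih
    rw [SimpleGraph.Walk.edges_cons, List.map_cons, List.sum_cons]
    have hp := hw s(a, b)
    rcases h.2 with h3 | h3
    · refine ⟨k + 1, s + w s(a, b), ?_, ?_⟩
      · linear_combination h1 + h3
      · have := abs_add_le s (w s(a, b))
        rw [abs_of_pos hp] at this
        linarith
    · refine ⟨k - 1, s - w s(a, b), ?_, ?_⟩
      · linear_combination h1 - h3
      · have := abs_sub s (w s(a, b))
        rw [abs_of_pos hp] at this
        linarith

lemma sum_nodup (hw : ∀ e, 0 < w e) (l : List (Sym2 (Fin n))) (hl : l.Nodup) :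
    (l.map w).sum ≤ ∑ e, w e := by
  rw [← List.sum_toFinset w hl]
  exact Finset.sum_le_univ_sum_of_nonneg (fun e => (hw e).le)

theorem t : Pool.Agent.H5SEP.UNP := by
  intro n G M w f hG hL hT
  have hw := hG.pos
  have hne : Nonempty (Fin n) := hT.connected.nonempty
  obtain ⟨r⟩ := hne
  set W := ∑ e, w e with hW
  have hW0 : 0 ≤ W := Finset.sum_nonneg (fun e _ => (hw e).le)
  have hM : 8 * W < M := hG.big
  have hwW : ∀ e, w e ≤ W := fun e =>
    Finset.single_le_sum (f := w) (fun e _ => (hw e).le) (Finset.mem_univ e)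
  have key : ∀ p, ∃ s : ℤ, f p - f r = M * ((f p - f r + W) / M) + s ∧ |s| ≤ W := by
    intro p
    obtain ⟨q⟩ := hT.connected.preconnected p r
    obtain ⟨k, s, h1, h2⟩ := walk_dec hw q.toPath.1
    have h3 := sum_nodup hw _ (q.toPath.2.edges_nodup)
    have h4 : |s| ≤ W := le_trans h2 h3
    have h5 := abs_le.mp h4
    have h6 : (f p - f r + W) / M = k := by
      rw [h1]
      have : M * k + s + W = (s + W) + M * k := by ring
      rw [this, Int.add_mul_ediv_left _ _ (by linarith : M ≠ 0), Int.ediv_eq_zero_of_lt (by linarith) (by linarith)]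
      ring
    exact ⟨s, by rw [h6]; exact h1, h4⟩
  refine ⟨fun p => (f p - f r + W) / M, ?_, ?_⟩
  · intro c d hcd
    obtain ⟨s, h1, h2⟩ := key c
    obtain ⟨s', h1', h2'⟩ := key d
    have h3 := hL c d hcd
    have h4 := hwW s(c, d)
    rw [abs_le] at h2 h2'
    by_contra hlt
    push Not at hlt
    have h5 : 2 ≤ (f c - f r + W) / M - (f d - f r + W) / M := by
      have : (1 : ℤ) < (f c - f r + W) / M - (f d - f r + W) / M := hlt
      omega
    have h6 : M * 2 ≤ M * ((f c - f r + W) / M - (f d - f r + W) / M) :=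
      mul_le_mul_of_nonneg_left h5 (by linarith)
    nlinarith
  · intro a b hab hf
    obtain ⟨s, h1, h2⟩ := key a
    obtain ⟨s', h1', h2'⟩ := key b
    have h4 := hwW s(a, b)
    have h5 := hw s(a, b)
    rw [abs_le] at h2 h2'
    show (f a - f r + W) / M - (f b - f r + W) / M = 1
    set X := (f a - f r + W) / M - (f b - f r + W) / M with hX
    have h6 : M * X = M + w s(a, b) - s + s' := by
      rw [hX]
      linear_combination h1' - h1 + hf
    rcases lt_trichotomy X 1 with h | h | h
    · have : X ≤ 0 := by omega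
      have : M * X ≤ 0 := mul_nonpos_of_nonneg_of_nonpos (by linarith) this
      linarith
    · exact h
    · have : 2 ≤ X := by omega
      have : M * 2 ≤ M * X := mul_le_mul_of_nonneg_left this (by linarith)
      linarith

end Pool.Agent.H5SEP.UNP
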