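import Pool.Agent.H5SEP.Defs
import Pool.Agent.H5SEP.CntB
import Pool.Agent.H5SEP.LEN
import Pool.Agent.H5SEP.ACY
import Pool.Agent.H5SEP.COV
import Pool.Agent.H5SEP.UNP
import Pool.Agent.H5SEP.CUT
import Pool.Agent.H5SEP.CARD
import Pool.Agent.H5SEP.SPAN
import Pool.Agent.H5SEP.FPAL
import Pool.Agent.H5SEP.FEX
import Pool.Agent.H5SEP.GAM
import Pool.Agent.H5SEP.UNI
import Pool.Agent.H5SEP.C8

/-!
# The counterexample: assembly
-/

set_option autoImplicit false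
set_option linter.constructorNameAsVariable false
open Finset

namespace Pool.Agent.H5SEP

open Pool.Agent.R135.SEP Pool.Agent.H5SEP.Cnt Pool.Agent.H5SEP.Pop

/-! ### `γ`-polynomials exist and are unique -/

theorem exists_gamma {n : ℕ} (G : SimpleGraph (Fin n)) (hn : 2 ≤ n) (hG : G.Connected) :
    ∃ γ, IsGammaPolynomial (n - 1) (hStar (n - 1) (edgePolytope G)) γ := by
  obtain ⟨Γ, Fp, co, D⟩ := FEX.t LEN.t ACY.t COV.t UNP.t CUT.t CARD.t SPAN.t n G hG hn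
  obtain ⟨h, h1, h2⟩ := FPAL.t n G Γ Fp co hn D
  obtain ⟨γ, h3⟩ := GAM.t (n - 1) h h1
  exact ⟨γ, by rw [h2]; exact h3⟩

theorem existsUnique_gamma {n : ℕ} (G : SimpleGraph (Fin n)) (hn : 2 ≤ n) (hG : G.Connected) :
    ∃! γ, IsGammaPolynomial (n - 1) (hStar (n - 1) (edgePolytope G)) γ := by
  obtain ⟨γ, h⟩ := exists_gamma G hn hG
  exact ⟨γ, h, fun γ' h' => UNI.t _ _ _ _ h' h⟩

theorem gammaP_spec {n : ℕ} (G : SimpleGraph (Fin n)) (hn : 2 ≤ n) (hG : G.Connected) :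
    IsGammaPolynomial (n - 1) (hStar (n - 1) (edgePolytope G)) (gammaP G) := by
  unfold gammaP gammaPolynomial
  rw [dif_pos (exists_gamma G hn hG)]
  exact (exists_gamma G hn hG).choose_spec

/-! ### The coefficients -/

lemma B_finite (G : SimpleGraph (Fin 9)) (hG : G.Connected) (m : ℕ) : (B G m).Finite := by
  induction m with
  | zero => exact Set.finite_singleton _
  | succ m ih =>
    have h1 : B G (m + 1) ⊆ B G m ∪ {x | x ∈ {x : Fin 9 → ℤ | bal x} ∧ nu G x = ((m + 1 : ℕ) : ℤ)} := by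
      intro x hx
      obtain ⟨h2, h3⟩ := (mem_B G hG (m + 1) x).mp hx
      by_cases h4 : nu G x ≤ m
      · exact Or.inl ((mem_B G hG m x).mpr ⟨h2, h4⟩)
      · refine Or.inr ⟨h2, ?_⟩
        push_cast at h3 ⊢
        omega
    exact (ih.union (nu_LF hG _)).subset h1

lemma coeff_zero (G : SimpleGraph (Fin 9)) (hG : G.Connected) :
    PowerSeries.coeff 0 (gf (nu G) {x | bal x}) = (B G 0).ncard := by
  rw [coeff_gf]
  congr 2
  ext x
  rw [mem_B G hG]
  constructor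
  · rintro ⟨h1, h2⟩
    exact ⟨h1, by rw [h2]⟩
  · rintro ⟨h1, h2⟩
    exact ⟨h1, le_antisymm h2 (by exact_mod_cast nu_nonneg hG h1)⟩

lemma coeff_succ (G : SimpleGraph (Fin 9)) (hG : G.Connected) (m : ℕ) :
    PowerSeries.coeff (m + 1) (gf (nu G) {x | bal x}) =
      ((B G (m + 1)).ncard : ℤ) - (B G m).ncard := by
  rw [coeff_gf]
  have h1 : B G (m + 1) = B G m ∪ {x | x ∈ {x : Fin 9 → ℤ | bal x} ∧ nu G x = ((m + 1 : ℕ) : ℤ)} := by
    ext x
    rw [Set.mem_union, mem_B G hG, mem_B G hG]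
    constructor
    · rintro ⟨h2, h3⟩
      by_cases h4 : nu G x ≤ m
      · exact Or.inl ⟨h2, h4⟩
      · refine Or.inr ⟨h2, ?_⟩
        push_cast at h3 ⊢
        omega
    · rintro (⟨h2, h3⟩ | ⟨h2, h3⟩)
      · exact ⟨h2, by push_cast; linarith⟩
      · exact ⟨h2, h3.le⟩
  have h2 : Disjoint (B G m)
      {x | x ∈ {x : Fin 9 → ℤ | bal x} ∧ nu G x = ((m + 1 : ℕ) : ℤ)} := by
    rw [Set.disjoint_left]
    rintro x hx ⟨_, h3⟩
    have h4 := ((mem_B G hG m x).mp hx).2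
    rw [h3] at h4
    push_cast at h4
    linarith
  rw [h1, Set.ncard_union_eq h2 (B_finite G hG m) (nu_LF hG _)]
  push_cast
  ring

/-- number of vectors in the ball, computed -/
def bv (E : List (Fin 9 × Fin 9)) (m : ℕ) : ℤ := (pop F (ball (kl E) m) : ℕ)

/-- the computed coefficients of the `γ`-polynomial -/
def gv (E : List (Fin 9 × Fin 9)) : ℕ → ℤ
  | 0 => bv E 0
  | 1 => (bv E 1 - bv E 0) - 16 * bv E 0
  | 2 => (bv E 2 - bv E 1) - 14 * (bv E 1 - bv E 0) + 96 * bv E 0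
  | 3 => (bv E 3 - bv E 2) - 12 * (bv E 2 - bv E 1) + 69 * (bv E 1 - bv E 0) - 256 * bv E 0
  | 4 => (bv E 4 - bv E 3) - 10 * (bv E 3 - bv E 2) + 46 * (bv E 2 - bv E 1)
      - 130 * (bv E 1 - bv E 0) + 256 * bv E 0
  | _ + 5 => 0

lemma gammaP_coeff (E : List (Fin 9 × Fin 9)) (hE : ∀ p ∈ E, p.1 ≠ p.2 ∧ W p.1 ≤ W p.2)
    (hG : (GE E).Connected) (k : ℕ) : (gammaP (GE E)).coeff k = gv E k := by
  have h1 := gammaP_spec (GE E) (by norm_num) hG
  have h2 : hStar (9 - 1) (edgePolytope (GE E)) =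
      (1 - PowerSeries.X) ^ 8 * gf (nu (GE E)) {x | bal x} := by
    unfold hStar
    rw [← ehrhart_eq hG (by norm_num), ← mul_assoc, ← pow_succ]
  have hb : ∀ m, m ≤ 4 → ((B (GE E) m).ncard : ℤ) = bv E m := by
    intro m hm
    unfold bv
    rw [ncard_B E hE m hm]
  have h3 : IsGammaPolynomial 8 ((1 - PowerSeries.X) ^ 8 * gf (nu (GE E)) {x | bal x})
      (gammaP (GE E)) := by
    rw [← h2]
    exact h1
  obtain ⟨g0, g1, g2, g3, g4⟩ := C8.t _ _ h3 (bv E 0) (bv E 1 - bv E 0) (bv E 2 - bv E 1)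
    (bv E 3 - bv E 2) (bv E 4 - bv E 3)
    (by rw [coeff_zero _ hG, hb 0 (by norm_num)])
    (by rw [coeff_succ _ hG, hb 1 (by norm_num), hb 0 (by norm_num)])
    (by rw [coeff_succ _ hG, hb 2 (by norm_num), hb 1 (by norm_num)])
    (by rw [coeff_succ _ hG, hb 3 (by norm_num), hb 2 (by norm_num)])
    (by rw [coeff_succ _ hG, hb 4 (by norm_num), hb 3 (by norm_num)])
  match k with
  | 0 => exact g0
  | 1 => exact g1
  | 2 => exact g2
  | 3 => exact g3
  | 4 => exact g4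
  | k + 5 => exact h3.1 (k + 5) (by omega)

/-! ### The graph -/

lemma exampleGraph_eq : exampleGraph = GE edgeList := by
  ext a b
  unfold exampleGraph
  rw [SimpleGraph.fromRel_adj]
  rfl

/-- delete the edge `ab` from the list -/
def del (E : List (Fin 9 × Fin 9)) (a b : Fin 9) : List (Fin 9 × Fin 9) :=
  E.filter (fun p => decide (¬ ((p.1 = a ∧ p.2 = b) ∨ (p.1 = b ∧ p.2 = a))))

lemma GE_delete (E : List (Fin 9 × Fin 9)) (a b : Fin 9) :
    (GE E).deleteEdges {s(a, b)} = GE (del E a b) := by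
  ext c d
  rw [SimpleGraph.deleteEdges_adj]
  unfold GE del
  simp only [List.mem_filter, decide_eq_true_eq, Set.mem_singleton_iff, Sym2.eq_iff]
  tauto

lemma reach_aux (G : SimpleGraph (Fin 9)) (v r : Fin 9) (hr : r ≠ v) (par : Fin 9 → Fin 9)
    (rk : Fin 9 → ℕ)
    (h : ∀ u, u ≠ v → u ≠ r → par u ≠ v ∧ G.Adj u (par u) ∧ rk (par u) < rk u) :
    (G.induce {v}ᶜ).Connected := by
  have key : ∀ k : ℕ, ∀ u, ∀ hu : u ∈ ({v}ᶜ : Set (Fin 9)), rk u ≤ k →
      (G.induce {v}ᶜ).Reachable ⟨u, hu⟩ ⟨r, hr⟩ := by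
    intro k
    induction k with
    | zero =>
      intro u hu hk
      by_cases h1 : u = r
      · subst h1
        exact SimpleGraph.Reachable.refl _
      · have := (h u hu h1).2.2
        omega
    | succ k ih =>
      intro u hu hk
      by_cases h1 : u = r
      · subst h1
        exact SimpleGraph.Reachable.refl _
      · obtain ⟨h2, h3, h4⟩ := h u hu h1
        have h5 := ih (par u) h2 (by omega)
        have h6 : (G.induce {v}ᶜ).Adj ⟨u, hu⟩ ⟨par u, h2⟩ := h3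
        exact h6.reachable.trans h5
  have : Nonempty ({v}ᶜ : Set (Fin 9)) := ⟨⟨r, hr⟩⟩
  exact ⟨fun x y => (key _ x.1 x.2 le_rfl).trans (key _ y.1 y.2 le_rfl).symm⟩

lemma conn_aux (G : SimpleGraph (Fin 9)) (v w : Fin 9) (hw : G.Adj v w)
    (h : (G.induce {v}ᶜ).Connected) : G.Connected := by
  have h1 : ∀ u, G.Reachable u w := by
    intro u
    by_cases hu : u = v
    · subst hu
      exact hw.reachable
    · have hwv : w ≠ v := hw.ne'
      have h2 := h.preconnected ⟨u, hu⟩ ⟨w, hwv⟩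
      exact h2.map (SimpleGraph.Embedding.induce _).toHom
  have : Nonempty (Fin 9) := ⟨v⟩
  exact ⟨fun x y => (h1 x).trans (h1 y).symm⟩

instance (E : List (Fin 9 × Fin 9)) : DecidableRel (GE E).Adj := fun a b =>
  inferInstanceAs (Decidable (a ≠ b ∧ ((a, b) ∈ E ∨ (b, a) ∈ E)))

def parT : Fin 9 → Fin 9 → Fin 9 :=
  ![![1, 1, 1, 1, 1, 7, 7, 1, 1], ![0, 0, 0, 0, 0, 0, 0, 5, 5], ![0, 3, 0, 0, 0, 0, 0, 5, 5],
    ![0, 2, 0, 0, 0, 0, 0, 5, 5], ![0, 2, 0, 0, 0, 0, 0, 5, 5], ![0, 2, 0, 0, 0, 0, 0, 6, 6],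
    ![0, 2, 0, 0, 0, 0, 0, 5, 5], ![0, 2, 0, 0, 0, 0, 0, 0, 5], ![0, 2, 0, 0, 0, 0, 0, 5, 0]]

def rkT : Fin 9 → Fin 9 → ℕ :=
  ![![0, 0, 1, 1, 1, 2, 2, 1, 1], ![0, 0, 1, 1, 1, 1, 1, 2, 2], ![0, 2, 0, 1, 1, 1, 1, 2, 2],
    ![0, 2, 1, 0, 1, 1, 1, 2, 2], ![0, 2, 1, 1, 0, 1, 1, 2, 2], ![0, 2, 1, 1, 1, 0, 1, 2, 2],
    ![0, 2, 1, 1, 1, 1, 0, 2, 2], ![0, 2, 1, 1, 1, 1, 1, 0, 2], ![0, 2, 1, 1, 1, 1, 1, 2, 0]]

def rootT : Fin 9 → Fin 9 := ![1, 0, 0, 0, 0, 0, 0, 0, 0]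

lemma table_ok : ∀ v : Fin 9, rootT v ≠ v ∧ ∀ u, u ≠ v → u ≠ rootT v →
    parT v u ≠ v ∧ (GE edgeList).Adj u (parT v u) ∧ rkT v (parT v u) < rkT v u := by
  decide +kernel

theorem twoConnected : TwoConnected exampleGraph := by
  rw [exampleGraph_eq]
  have h1 : ∀ v : Fin 9, ((GE edgeList).induce {v}ᶜ).Connected := fun v =>
    reach_aux _ v (rootT v) (table_ok v).1 (parT v) (rkT v) (table_ok v).2
  exact ⟨by norm_num, conn_aux _ 0 2 (by decide +kernel) (h1 0), h1⟩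

/-! ### The polynomial `Z` -/

lemma edges_nodup : (edgeList.map (fun p => s(p.1, p.2))).Nodup := by decide +kernel

lemma edgeFinset_eq (s : Finset (Sym2 (Fin 9))) (hs : ∀ e, e ∈ s ↔ e ∈ (GE edgeList).edgeSet) :
    s = (edgeList.map (fun p => s(p.1, p.2))).toFinset := by
  have hne : ∀ p ∈ edgeList, p.1 ≠ p.2 := by decide +kernel
  ext e
  rw [hs, List.mem_toFinset, List.mem_map]
  induction e with
  | h a b =>
    rw [SimpleGraph.mem_edgeSet]
    constructor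
    · rintro ⟨_, h | h⟩
      · exact ⟨(a, b), h, rfl⟩
      · exact ⟨(b, a), h, Sym2.eq_swap⟩
    · rintro ⟨⟨c, d⟩, h, h2⟩
      have h3 := hne _ h
      rcases Sym2.eq_iff.mp h2 with ⟨h4, h5⟩ | ⟨h4, h5⟩
      · simp only at h4 h5 h3
        subst h4 h5
        exact ⟨h3, Or.inl h⟩
      · simp only at h4 h5 h3
        subst h4 h5
        exact ⟨h3.symm, Or.inr h⟩

lemma edge_le : ∀ p ∈ edgeList, p.1 ≠ p.2 ∧ W p.1 ≤ W p.2 := by decide +kernel

lemma del_le (a b : Fin 9) : ∀ p ∈ del edgeList a b, p.1 ≠ p.2 ∧ W p.1 ≤ W p.2 := by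
  intro p hp
  exact edge_le p (List.mem_of_mem_filter hp)

lemma Z_coeff_aux (k : ℕ) (s : Finset (Sym2 (Fin 9)))
    (hs : ∀ e, e ∈ s ↔ e ∈ (GE edgeList).edgeSet) (h2c : TwoConnected (GE edgeList)) :
    ∑ e ∈ s, (gammaP (GE edgeList) - gammaP ((GE edgeList).deleteEdges {e})).coeff k =
    (edgeList.map (fun p => gv edgeList k - gv (del edgeList p.1 p.2) k)).sum := by
  rw [edgeFinset_eq s hs, List.sum_toFinset _ edges_nodup, List.map_map]
  congr 1
  apply List.map_congr_left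
  rintro ⟨a, b⟩ hab
  have hadj : (GE edgeList).Adj a b := ⟨(edge_le _ hab).1, Or.inl hab⟩
  have h3 := h2c.deleteEdges hadj
  rw [Function.comp_apply, Polynomial.coeff_sub, gammaP_coeff edgeList edge_le h2c.2.1]
  rw [GE_delete] at h3 ⊢
  rw [gammaP_coeff _ (del_le a b) h3]

lemma Z_coeff (k : ℕ) : (Z exampleGraph).coeff k =
    (edgeList.map (fun p => gv edgeList k - gv (del edgeList p.1 p.2) k)).sum := by
  classical
  have h2c := twoConnected
  unfold Z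
  rw [Polynomial.finsetSum_coeff]
  have hmem : ∀ e, e ∈ exampleGraph.edgeFinset ↔ e ∈ exampleGraph.edgeSet :=
    fun e => SimpleGraph.mem_edgeFinset
  revert hmem
  generalize exampleGraph.edgeFinset = s
  rw [exampleGraph_eq] at h2c ⊢
  intro hmem
  exact Z_coeff_aux k s hmem h2c

/-- the values -/
def zv (k : ℕ) : ℤ := (edgeList.map (fun p => gv edgeList k - gv (del edgeList p.1 p.2) k)).sum

lemma zv0 : zv 0 = 0 := by decide +kernel
lemma zv1 : zv 1 = 38 := by decide +kernel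
lemma zv2 : zv 2 = 508 := by decide +kernel
lemma zv3 : zv 3 = 668 := by decide +kernel
lemma zv4 : zv 4 = -12 := by decide +kernel
lemma zv5 (k : ℕ) : zv (k + 5) = 0 := by
  unfold zv
  have : (fun p : Fin 9 × Fin 9 => gv edgeList (k + 5) - gv (del edgeList p.1 p.2) (k + 5)) =
      fun _ => 0 := by
    funext p
    rfl
  rw [this]
  simp

theorem Z_eq : Z exampleGraph =
    38 * Polynomial.X + 508 * Polynomial.X ^ 2 + 668 * Polynomial.X ^ 3 - 12 * Polynomial.X ^ 4 := by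
  have h0 : (38 : Polynomial ℤ) = Polynomial.C 38 := rfl
  have h1 : (508 : Polynomial ℤ) = Polynomial.C 508 := rfl
  have h2 : (668 : Polynomial ℤ) = Polynomial.C 668 := rfl
  have h3 : (12 : Polynomial ℤ) = Polynomial.C 12 := rfl
  ext k
  rw [Z_coeff, h0, h1, h2, h3]
  change zv k = _
  simp only [Polynomial.coeff_sub, Polynomial.coeff_add, Polynomial.coeff_C_mul,
    Polynomial.coeff_X_pow, Polynomial.coeff_X]
  match k with
  | 0 => rw [zv0]; simp
  | 1 => rw [zv1]; simp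
  | 2 => rw [zv2]; simp
  | 3 => rw [zv3]; simp
  | 4 => rw [zv4]; simp
  | k + 5 => rw [zv5]; simp

end Pool.Agent.H5SEP
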