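import Mathlib

/-!
# Counting the binary digits 1 of a large natural number in the kernel
-/

set_option autoImplicit false
open Finset

namespace Pool.Agent.H5SEP.Pop

/-- ones at the multiples of 32 below 32*F -/
def msk (F : ℕ) : ℕ := (2 ^ (32 * F) - 1) / (2 ^ 32 - 1)

def popAux (M N : ℕ) : ℕ → ℕ
  | 0 => 0
  | r + 1 => Nat.add (popAux M N r) (Nat.land (Nat.shiftRight N r) M)

/-- the number of binary digits 1 of `N`, for `N < 2 ^ (32 * F)` -/
def pop (F N : ℕ) : ℕ := popAux (msk F) N 32 % (2 ^ 32 - 1)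

lemma msk_succ (F : ℕ) : msk (F + 1) = 2 ^ 32 * msk F + 1 := by
  have h : ∀ F, (2 ^ 32 - 1) ∣ (2 ^ (32 * F) - 1) := by
    intro F
    rw [pow_mul]
    exact Nat.sub_one_dvd_pow_sub_one _ _ 
  obtain ⟨a, ha⟩ := h F
  unfold msk
  have h1 : 2 ^ (32 * (F + 1)) - 1 = (2 ^ 32 - 1) * (2 ^ 32 * a + 1) := by
    have h2 : 2 ^ (32 * F) = (2 ^ 32 - 1) * a + 1 := by
      have : 0 < 2 ^ (32 * F) := by positivity
      omega
    rw [show 32 * (F + 1) = 32 * F + 32 by ring, pow_add, h2]
    norm_num
    omega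
  rw [h1, ha, Nat.mul_div_cancel_left _ (by norm_num), Nat.mul_div_cancel_left _ (by norm_num)]

lemma msk_testBit (F j : ℕ) : (msk F).testBit j = decide (j < 32 * F ∧ 32 ∣ j) := by
  induction F generalizing j with
  | zero => simp [msk]
  | succ F ih =>
    rw [msk_succ, Nat.testBit_two_pow_mul_add _ (by norm_num : 1 < 2 ^ 32), ih]
    by_cases h : j < 32
    · rw [if_pos h]
      have h0 : Nat.testBit 1 j = decide (j = 0) := by
        by_cases hj : j = 0
        · subst hj; rfl
        · rw [decide_eq_false hj, Bool.eq_false_iff]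
          intro h1
          exact hj (Nat.testBit_one_eq_true_iff_self_eq_zero.mp h1)
      rw [h0]
      congr 1
      apply propext
      constructor
      · intro h1
        exact ⟨by omega, by omega⟩
      · rintro ⟨h1, h2⟩
        omega
    · rw [if_neg h]
      congr 1
      apply propext
      constructor
      · rintro ⟨h1, h2⟩
        exact ⟨by omega, by omega⟩
      · rintro ⟨h1, h2⟩
        exact ⟨by omega, by omega⟩

lemma mod_eq_sum (N L : ℕ) : N % 2 ^ L = ∑ i ∈ range L, (N.testBit i).toNat * 2 ^ i := by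
  induction L with
  | zero => simp [Nat.mod_one]
  | succ L ih => rw [Nat.mod_pow_succ, ih, Finset.sum_range_succ, ← Nat.toNat_testBit, mul_comm (2 ^ L)]

lemma land_eq (N F r : ℕ) : Nat.land (Nat.shiftRight N r) (msk F) =
    ∑ i ∈ range (32 * F), (N.testBit (i + r)).toNat * (if 32 ∣ i then 1 else 0) * 2 ^ i := by
  have h1 : Nat.land (Nat.shiftRight N r) (msk F) = (N >>> r) &&& msk F := rfl
  have hlt : msk F < 2 ^ (32 * F) := by
    apply Nat.lt_pow_two_of_testBit
    intro i hi
    rw [msk_testBit]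
    simp; omega
  have h2 : (N >>> r) &&& msk F < 2 ^ (32 * F) := lt_of_le_of_lt Nat.and_le_right hlt
  rw [h1, ← Nat.mod_eq_of_lt h2, mod_eq_sum]
  apply Finset.sum_congr rfl
  intro i hi
  rw [Finset.mem_range] at hi
  rw [Nat.testBit_and, Nat.testBit_shiftRight, msk_testBit, add_comm r i]
  congr 1
  by_cases h : 32 ∣ i
  · simp [h, hi]
  · simp [h]

lemma popAux_eq (M N k : ℕ) : popAux M N k = ∑ r ∈ range k, Nat.land (Nat.shiftRight N r) M := by
  induction k with
  | zero => rfl
  | succ k ih => rw [Finset.sum_range_succ, ← ih]; rfl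

lemma sum_blocks (b : ℕ → ℕ) (F : ℕ) :
    ∑ r ∈ range 32, ∑ i ∈ range (32 * F), b (i + r) * (if 32 ∣ i then 1 else 0) =
      ∑ i ∈ range (32 * F), b i := by
  induction F with
  | zero => simp
  | succ F ih =>
    rw [show 32 * (F + 1) = 32 * F + 32 by ring, Finset.sum_range_add (fun i => b i), ← ih,
      ← Finset.sum_add_distrib]
    apply Finset.sum_congr rfl
    intro r _
    have h1 : ∑ s ∈ range 32, b (32 * F + s + r) * (if 32 ∣ 32 * F + s then 1 else 0) =
        b (32 * F + r) := by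
      rw [Finset.sum_eq_single_of_mem 0 (by simp)]
      · rw [add_zero, if_pos (Nat.dvd_mul_right 32 F), mul_one]
      · intro s hs hs0
        rw [Finset.mem_range] at hs
        have h2 : ¬ 32 ∣ (32 * F + s) := by omega
        rw [if_neg h2, mul_zero]
    rw [Finset.sum_range_add, h1]

lemma popAux_mod (P : ℕ) (hP : 2 ^ 32 = P + 1) (N F : ℕ) :
    popAux (msk F) N 32 ≡ ∑ i ∈ range (32 * F), (N.testBit i).toNat [MOD P] := by
  rw [popAux_eq, ← sum_blocks]
  have h0 : 2 ^ 32 ≡ 1 [MOD P] := by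
    rw [hP]
    unfold Nat.ModEq
    rw [Nat.add_mod_left]
  apply Nat.ModEq.sum
  intro r _
  rw [land_eq]
  apply Nat.ModEq.sum
  intro i _
  by_cases h : 32 ∣ i
  · obtain ⟨k, rfl⟩ := h
    have h1 : 2 ^ (32 * k) ≡ 1 [MOD P] := by
      rw [pow_mul]
      have h2 := h0.pow k
      rwa [one_pow] at h2
    have hd : 32 ∣ 32 * k := Nat.dvd_mul_right 32 k
    rw [if_pos hd, mul_one]
    generalize (N.testBit (32 * k + r)).toNat = u
    generalize 2 ^ (32 * k) = v at h1
    have h2 : u * v ≡ u * 1 [MOD P] := Nat.ModEq.mul_left u h1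
    rwa [mul_one] at h2
  · rw [if_neg h, mul_zero, zero_mul]

theorem pop_eq (F N : ℕ) (hF : 32 * F < 2 ^ 32 - 1) :
    pop F N = ((range (32 * F)).filter (fun i => N.testBit i = true)).card := by
  have h1 : ∑ i ∈ range (32 * F), (N.testBit i).toNat =
      ((range (32 * F)).filter (fun i => N.testBit i = true)).card := by
    rw [Finset.card_filter]
    apply Finset.sum_congr rfl
    intro i _
    cases N.testBit i <;> rfl
  unfold pop
  rw [← h1]
  have h2 := popAux_mod (2 ^ 32 - 1) (by norm_num) N F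
  unfold Nat.ModEq at h2
  rw [h2]
  apply Nat.mod_eq_of_lt
  calc ∑ i ∈ range (32 * F), (N.testBit i).toNat ≤ ∑ i ∈ range (32 * F), 1 :=
        Finset.sum_le_sum (fun i _ => Bool.toNat_le _)
    _ = 32 * F := by simp
    _ < _ := hF

end Pool.Agent.H5SEP.Pop
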