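import Pool.Agent.R135.SEPFinal

/-!
# Project SEP (helper5, MP_ca000f_co): palindromicity of the h*-polynomial of P_G, stubs

Prove `theorem t : STUB := ...` in `Pool/Agent/H5SEP/<Stub>.lean` (import `Pool.Agent.H5SEP.Stm`), namespace
`Pool.Agent.H5SEP.<Stub>`. Only this file and the library `Pool.Agent.R135.SEP*` are needed.
The library (namespace `Pool.Agent.R135.SEP`): `pr f x = ∑ a, f a * x a`, `bal x : ∑ a, x a = 0`,
`ev a b = e_a - e_b`, `Lip G f : ∀ a b, G.Adj a b → f a - f b ≤ 1`, `nu G x = max pr f x` over `Lip G f`,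
`Gen y` : all proper nonempty subset sums of `y` are nonzero.
-/

set_option autoImplicit false
open Finset

namespace Pool.Agent.H5SEP

open Pool.Agent.R135.SEP

/-- generic edge lengths `M + w e`: `M` is large, and no nontrivial `{-1,0,1}`-combination vanishes -/
structure Gw (n : ℕ) (M : ℤ) (w : Sym2 (Fin n) → ℤ) : Prop where
  pos : ∀ e, 0 < w e
  big : 8 * ∑ e, w e < M
  gen : ∀ ε : Sym2 (Fin n) → ℤ, (∀ e, ε e = -1 ∨ ε e = 0 ∨ ε e = 1) →
    ∑ e, ε e * (M + w e) = 0 → ∀ e, ε e = 0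

/-- potentials for the lengths -/
def LipW {n : ℕ} (G : SimpleGraph (Fin n)) (M : ℤ) (w : Sym2 (Fin n) → ℤ) (f : Fin n → ℤ) : Prop :=
  ∀ a b, G.Adj a b → f a - f b ≤ M + w s(a, b)

/-- the graph of the tight edges of `f` -/
def TG {n : ℕ} (G : SimpleGraph (Fin n)) (M : ℤ) (w : Sym2 (Fin n) → ℤ) (f : Fin n → ℤ) :
    SimpleGraph (Fin n) where
  Adj a b := G.Adj a b ∧ (f a - f b = M + w s(a, b) ∨ f b - f a = M + w s(a, b))
  symm := ⟨fun a b h => ⟨h.1.symm, by rw [Sym2.eq_swap]; exact h.2.symm⟩⟩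
  loopless := ⟨fun a h => G.loopless.irrefl a h.1⟩

/-- the tight vectors `e_a - e_b`, `f a - f b = ℓ(ab)` -/
noncomputable def TV {n : ℕ} (G : SimpleGraph (Fin n)) (M : ℤ) (w : Sym2 (Fin n) → ℤ)
    (f : Fin n → ℤ) : Finset (Fin n → ℤ) := by
  classical
  exact (univ.filter (fun p : Fin n × Fin n => G.Adj p.1 p.2 ∧ f p.1 - f p.2 = M + w s(p.1, p.2))).image
    (fun p => ev p.1 p.2)

/-- `A` is one side of the cut of the tree `TG` given by its tight arc `(a, b)`: the only edge of `TG` which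
leaves `A` is `(a, b)` -/
def Cut {n : ℕ} (G : SimpleGraph (Fin n)) (M : ℤ) (w : Sym2 (Fin n) → ℤ) (f : Fin n → ℤ)
    (a b : Fin n) (A : Finset (Fin n)) : Prop :=
  G.Adj a b ∧ f a - f b = M + w s(a, b) ∧ a ∈ A ∧ b ∉ A ∧
    ∀ c d, (TG G M w f).Adj c d → c ∈ A → d ∉ A → c = a ∧ d = b

/-- a complete unimodular fan (as `Data` in `R135/SEPHalf.lean`, without the edge `ij`) -/
structure Fan {n : ℕ} (G : SimpleGraph (Fin n)) (Γ : Finset (Finset (Fin n → ℤ)))
    (F : Finset (Fin n → ℤ) → (Fin n → ℤ))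
    (co : Finset (Fin n → ℤ) → (Fin n → ℤ) → (Fin n → ℤ) → ℤ) : Prop where
  conn : G.Connected
  card : ∀ σ ∈ Γ, σ.card = n - 1
  edge : ∀ σ ∈ Γ, ∀ v ∈ σ, ∃ a b, G.Adj a b ∧ v = ev a b
  lip : ∀ σ ∈ Γ, Lip G (F σ)
  one : ∀ σ ∈ Γ, ∀ v ∈ σ, pr (F σ) v = 1
  rep : ∀ σ ∈ Γ, ∀ x, bal x → ∑ v ∈ σ, co σ v x • v = x
  indep : ∀ σ ∈ Γ, ∀ c : (Fin n → ℤ) → ℤ, ∑ v ∈ σ, c v • v = 0 → ∀ v ∈ σ, c v = 0
  sub : ∀ σ ∈ Γ, ∀ v ∈ σ, ∃ A : Finset (Fin n), A.Nonempty ∧ A ≠ univ ∧
    ∀ x, bal x → co σ v x = ∑ p ∈ A, x p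
  uniq : ∀ σ ∈ Γ, ∀ τ ∈ Γ, ∀ c c' : (Fin n → ℤ) → ℕ,
    ∑ v ∈ σ, (c v : ℤ) • v = ∑ v ∈ τ, (c' v : ℤ) • v → ∀ v ∈ σ, 0 < c v → v ∈ τ ∧ c' v = c v
  cover : ∀ y, bal y → Gen y → ∃ σ ∈ Γ, ∀ v ∈ σ, 0 ≤ co σ v y

/-- the `γ`-polynomial of a power series `h` (palindromic of degree `d`) -/
def IsGammaPolynomial (d : ℕ) (h : PowerSeries ℤ) (γ : Polynomial ℤ) : Prop :=
  (∀ j, d / 2 < j → γ.coeff j = 0) ∧
    h = ∑ j ∈ range (d / 2 + 1),
      PowerSeries.C (γ.coeff j) * PowerSeries.X ^ j * (1 + PowerSeries.X) ^ (d - 2 * j)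

/-! ### The stubs -/

/-- **LEN**. Enumerate the finite type `Sym2 (Fin n)` (`Fintype.equivFin`, `N` elements), `w e = 3 ^ (index of e)`,
`M = 3 ^ (N + 2)` (and `2 * ∑ w = 3 ^ N - 1`). If `∑ ε e * (M + w e) = 0` then `∑ ε e * w e` is a multiple of `M` of
absolute value `≤ ∑ w < M`, so it is `0`, and a vanishing sum `∑ ε_i 3^i` with `ε_i ∈ {-1,0,1}` has all
`ε_i = 0` (induction, look modulo 3). -/
def LEN : Prop := ∀ n : ℕ, ∃ (M : ℤ) (w : Sym2 (Fin n) → ℤ), Gw n M w

/-- **ACY**. A cycle in `TG` has distinct edges, and for each dart `(a, b)` of it `f a - f b = ± (M + w s(a, b))`;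
these differences add up to `0` around the cycle, which contradicts `Gw.gen` with `ε e = ± 1` on the edges of
the cycle and `0` elsewhere. (E.g. by `SimpleGraph.isAcyclic_iff_forall_adj_isBridge` or
`adj_and_reachable_delete_edges_iff_exists_cycle`, or directly with `SimpleGraph.IsAcyclic`: for a walk `p` one has
`f u - f v = ∑ over p.darts (f d.fst - f d.snd)`; `p.edges` is nodup for a cycle.) -/
def ACY : Prop := ∀ (n : ℕ) (G : SimpleGraph (Fin n)) (M : ℤ) (w : Sym2 (Fin n) → ℤ) (f : Fin n → ℤ),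
  Gw n M w → (TG G M w f).IsAcyclic

/-- **COV** (linear programming). Let `f` maximise `pr f y` over the potentials `LipW` (the maximum exists: `0` is a
potential; as `G` is connected and `y` is balanced, `pr f y` is bounded above, since `f p - f r ≤ C` for all `p`, `r`
by walks; the values are integers). (i) `TG` is connected: otherwise the set `A` of vertices reachable from a vertex
in `TG` and its complement are nonempty, no tight arc joins them, so `f ± 1_A` is a potential, and maximality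
gives `± ∑_{A} y ≤ 0`: contradiction to `Gen y`. (ii) If `Cut` holds for `(a, b)` and `A` then `f - 1_A` is a potential:
for an arc `(c, d)` with `c ∉ A`, `d ∈ A` the difference `f c - f d` goes up by one, but `(c, d)` is not tight because
otherwise `(d, c)` is an edge of `TG` leaving `A`, so `d = a`, `c = b`, and `f b - f a = f a - f b = M + w > 0`. So
`- ∑_A y ≤ 0`. -/
def COV : Prop := ∀ (n : ℕ) (G : SimpleGraph (Fin n)) (M : ℤ) (w : Sym2 (Fin n) → ℤ),
  G.Connected → Gw n M w → ∀ y : Fin n → ℤ, bal y → Gen y →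
    ∃ f, LipW G M w f ∧ (TG G M w f).Connected ∧
      ∀ a b A, Cut G M w f a b A → 0 ≤ ∑ p ∈ A, y p

/-- **UNP** (the unperturbed potential). Let `W = ∑ w`, so `8 W < M`. Fix a root `r` and put
`F p = (f p - f r + W) / M` (floor division). For every `p` a path of `TG` from `p` to `r` has distinct edges, so
`f p - f r = M * k + s` with `|s| ≤ W` (`k`, `s` are sums of `± 1`, `± w e` over its edges), hence `F p = k` and
`f p - f r = M * F p + s_p`, `|s_p| ≤ W`. For an arc `(c, d)` of `G`: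
`M (F c - F d) = f c - f d - s_c + s_d ≤ M + w s(c,d) + 2 W ≤ M + 3 W < 2 M`, so `F c - F d ≤ 1`. For a tight arc
`(a, b)`: `M (F a - F b) = M + w - s_a + s_b`, so `|M (F a - F b - 1)| ≤ 3 W < M` and `F a - F b = 1`. -/
def UNP : Prop := ∀ (n : ℕ) (G : SimpleGraph (Fin n)) (M : ℤ) (w : Sym2 (Fin n) → ℤ) (f : Fin n → ℤ),
  Gw n M w → LipW G M w f → (TG G M w f).IsTree →
    ∃ F : Fin n → ℤ, Lip G F ∧ ∀ a b, G.Adj a b → f a - f b = M + w s(a, b) → F a - F b = 1

/-- **CUT**. `TG` is a tree, so its edge `ab` is a bridge (`SimpleGraph.isAcyclic_iff_forall_adj_isBridge`,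
`SimpleGraph.isBridge_iff`): `b` is not reachable from `a` in `TG` minus `ab`. Let `A` be the set of the vertices
reachable from `a` in `TG` minus `ab`. -/
def CUT : Prop := ∀ (n : ℕ) (G : SimpleGraph (Fin n)) (M : ℤ) (w : Sym2 (Fin n) → ℤ) (f : Fin n → ℤ),
  Gw n M w → (TG G M w f).IsTree → ∀ a b, G.Adj a b → f a - f b = M + w s(a, b) →
    ∃ A : Finset (Fin n), Cut G M w f a b A

/-- **CARD**. The map `(a, b) ↦ e_a - e_b` is injective on pairs `a ≠ b`, and `(a, b) ↦ s(a, b)` is a bijection from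
the tight arcs to the edges of `TG` (an edge is tight in only one direction because `M + w e > 0`); a tree has
`n - 1` edges (`SimpleGraph.IsTree.card_edgeFinset`). -/
def CARD : Prop := ∀ (n : ℕ) (G : SimpleGraph (Fin n)) (M : ℤ) (w : Sym2 (Fin n) → ℤ) (f : Fin n → ℤ),
  Gw n M w → (TG G M w f).IsTree → (TV G M w f).card = n - 1

/-- **SPAN**. Every balanced integer vector is a combination of the tight vectors: for adjacent (in `TG`) vertices
`a`, `b` the vector `ev a b` is `±` a tight vector; for arbitrary `a`, `b` sum along a walk; a balanced `x` is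
`∑ p, x p • ev p r` for any fixed `r`. (Suggestion: show that
`{x | ∃ c : (Fin n → ℤ) → ℤ, ∑ v ∈ TV, c v • v = x}` is closed under addition and negation, or work with
`Submodule.span ℤ` and `Submodule.mem_span_finset`.) -/
def SPAN : Prop := ∀ (n : ℕ) (G : SimpleGraph (Fin n)) (M : ℤ) (w : Sym2 (Fin n) → ℤ) (f : Fin n → ℤ),
  (TG G M w f).Connected → ∀ x, bal x → ∃ c : (Fin n → ℤ) → ℤ, ∑ v ∈ TV G M w f, c v • v = x

/-- **FPAL**. Adapt `R135/SEPHalf.lean` (`Data.co_pert`, `co_le`, `co_ne`, `half_exists`, `half_pos`, `half_unique`,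
with `Fan` in place of `Data` and everything about `ev i j`, `slope`, `vis` left out; a direction `E` is now only a
balanced generic vector, `exists_gen`) and `R135/SEPMain.lean` (`Sp_gf`, `card_neg`, `Dp_symm`): every balanced `x`
lies in exactly one half-open cone `piece σ (neg co σ s E)`, `s = ± 1`, so
`(1 - X) ^ (n - 1) * gf (nu G) {x | bal x} = ∑ σ ∈ Γ, X ^ (neg co σ s E).card` for `s = 1` and for `s = -1`, and
`(neg co σ (-1) E).card = (n - 1) - (neg co σ 1 E).card`. With `ehrhart_eq` (`R135/SEPGeo.lean`) this is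
`hStar (n - 1) (edgePolytope G)`. -/
def FPAL : Prop := ∀ (n : ℕ) (G : SimpleGraph (Fin n)) (Γ : Finset (Finset (Fin n → ℤ)))
    (F : Finset (Fin n → ℤ) → (Fin n → ℤ))
    (co : Finset (Fin n → ℤ) → (Fin n → ℤ) → (Fin n → ℤ) → ℤ), 2 ≤ n → Fan G Γ F co →
  ∃ h : Polynomial ℤ, IsPalindromic (n - 1) h ∧
    hStar (n - 1) (edgePolytope G) = (h : PowerSeries ℤ)

/-- **FEX** (assembly of the fan). Take `M`, `w` from `LEN`. Let `Γ` be the finite set of all subsets of
`{ev a b | G.Adj a b}` of the form `TV G M w f`, where `f` is a potential (`LipW`) and `TG G M w f` is connected (so a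
tree, by `ACY`). For `σ = TV f` choose such an `f = f_σ` and let `F σ` be given by `UNP`, and for `v = ev a b ∈ σ` let
`co σ v x = ∑ p ∈ A, x p` for a cut `A` given by `CUT`. For two tight arcs `v = ev a b` (with cut `A`) and `u = ev c d`
the sum of `u` over `A` is `1` if `u = v` and `0` otherwise (`c ∈ A`, `d ∉ A` force `u = v`; `c ∉ A`, `d ∈ A` force
`d = a`, `c = b`, impossible as `M + w > 0`). With `SPAN` this gives `rep` and `indep`. `uniq`: pair
`z = ∑_σ c v • v = ∑_τ c' v • v` with `f_σ`: `∑_σ c v ℓ(v) = pr f_σ z ≤ ∑_τ c' v ℓ(v)`, with equality only if all `v ∈ τ`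
with `c' v > 0` are tight for `f_σ`, i.e. `v ∈ σ`; by symmetry there is equality, and then both combinations live
on `σ ∩ τ`, and agree by `indep`. `cover` is `COV` (for `σ = TV f`; note that `TV f = TV f_σ` implies that the same arcs
are tight for `f` and `f_σ`, so the same sets are cuts). -/
def FEX : Prop := LEN → ACY → COV → UNP → CUT → CARD → SPAN →
  ∀ (n : ℕ) (G : SimpleGraph (Fin n)), G.Connected → 2 ≤ n →
    ∃ (Γ : Finset (Finset (Fin n → ℤ))) (F : Finset (Fin n → ℤ) → (Fin n → ℤ))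
      (co : Finset (Fin n → ℤ) → (Fin n → ℤ) → (Fin n → ℤ) → ℤ), Fan G Γ F co

/-- **GAM**. Strong induction on `d`: `d = 0`: `h = C h₀`; `d = 1`: `h = h₀ (1 + X)`; otherwise
`h - h₀ (1 + X) ^ d` is palindromic of degree `d` with vanishing coefficients `0` and `d`, so it is `X * h'` with
`h'` palindromic of degree `d - 2`; take `γ = C h₀ + X * γ'`. -/
def GAM : Prop := ∀ (d : ℕ) (h : Polynomial ℤ), IsPalindromic d h →
  ∃ γ : Polynomial ℤ, IsGammaPolynomial d (h : PowerSeries ℤ) γ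

/-- **UNI**. Compare the lowest coefficient in which two `γ`-polynomials differ. -/
def UNI : Prop := ∀ (d : ℕ) (h : PowerSeries ℤ) (γ γ' : Polynomial ℤ),
  IsGammaPolynomial d h γ → IsGammaPolynomial d h γ' → γ = γ'

/-- **C8**. Extract the coefficients `0, …, 4` of the identity in `IsGammaPolynomial 8 h γ` (binomial coefficients
of `(1 + X) ^ 8`, `(1 + X) ^ 6`, `(1 + X) ^ 4`, `(1 + X) ^ 2`, `1`) and of
`(1 - X) ^ 8 * s`. -/
def C8 : Prop := ∀ (s : PowerSeries ℤ) (γ : Polynomial ℤ),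
  IsGammaPolynomial 8 ((1 - PowerSeries.X) ^ 8 * s) γ →
  ∀ s0 s1 s2 s3 s4 : ℤ, PowerSeries.coeff 0 s = s0 → PowerSeries.coeff 1 s = s1 →
    PowerSeries.coeff 2 s = s2 → PowerSeries.coeff 3 s = s3 → PowerSeries.coeff 4 s = s4 →
  γ.coeff 0 = s0 ∧
  γ.coeff 1 = s1 - 16 * s0 ∧
  γ.coeff 2 = s2 - 14 * s1 + 96 * s0 ∧
  γ.coeff 3 = s3 - 12 * s2 + 69 * s1 - 256 * s0 ∧
  γ.coeff 4 = s4 - 10 * s3 + 46 * s2 - 130 * s1 + 256 * s0

end Pool.Agent.H5SEP
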